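import Pool.Agent.W603.PV.Abs
import Pool.Agent.W603.PV.Ext

/-!
Heights of elements that are algebraic over a field generated by given fractions.
-/

set_option autoImplicit false

namespace Pool.Agent.W601.VF

open FF MvPolynomial Pool.Agent.W603.LV Pool.Agent.W603.PV

universe u v w z a b

variable {k : Type u} [Field k] {F : Type b} [Field F] {A : Type v} [CommRing A] [IsDomain A]
  [Algebra F A]

theorem alg_bound [IsAlgClosed k] [CharZero k] {ρ : Type z} [Fintype ρ] {J : Type a} [Finite J]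
    (s t : ρ → A) (ht : ∀ i, t i ≠ 0) (num den : J → A) (hden : ∀ j, den j ≠ 0)
    (halg : ∀ j, IsAlgebraic (IntermediateField.adjoin F (Set.range fun i =>
        algebraMap A (FractionRing A) (s i) / algebraMap A (FractionRing A) (t i)))
      (algebraMap A (FractionRing A) (num j) / algebraMap A (FractionRing A) (den j))) :
    ∃ g : A, g ≠ 0 ∧ ∃ (B : ℕ) (E : Finset F), ∀ (L : Type w) [Field L] [Algebra k L] [IsFF k L]
      [Algebra F L] (θ : A →ₐ[F] L), θ g ≠ 0 → ∀ X : ℤ, 0 ≤ X →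
      (∀ i, hgt k (θ (s i) / θ (t i)) ≤ X) → ∀ j, θ (den j) ≠ 0 ∧
        hgt k (θ (num j) / θ (den j)) ≤ B * X + B * ∑ c ∈ E, hgt k (algebraMap F L c) := by
  classical
  have := Fintype.ofFinite J
  set rt : ρ → FractionRing A := fun i =>
    algebraMap A (FractionRing A) (s i) / algebraMap A (FractionRing A) (t i) with hrt
  have key : ∀ j : J, ∃ (D : ℕ) (c : ℕ → MvPolynomial ρ F) (nm dn : A), nm ≠ 0 ∧
        aeval rt (c D) * algebraMap A (FractionRing A) dn =
          algebraMap A (FractionRing A) nm ∧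
        ∑ d ∈ Finset.range (D + 1), aeval rt (c d) *
          (algebraMap A (FractionRing A) (num j) / algebraMap A (FractionRing A) (den j)) ^ d
            = 0 := by
    intro j
    obtain ⟨D, c, hc, hc'⟩ := exists_rel' rt _ (halg j)
    obtain ⟨nm, dn, hdn, hnd⟩ := IsFractionRing.div_surjective (A := A) (aeval rt (c D))
    have hdn0 : algebraMap A (FractionRing A) dn ≠ 0 := by
      intro h0
      have h2 : dn = 0 := IsFractionRing.injective A (FractionRing A) (by rw [h0, map_zero])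
      rw [h2] at hdn
      exact zero_notMem_nonZeroDivisors hdn
    refine ⟨D, c, nm, dn, ?_, ?_, hc'⟩
    · rintro rfl
      rw [map_zero, zero_div] at hnd
      exact hc hnd.symm
    · rw [← hnd]; field_simp
  choose D c nm dn hnm hkey using key
  obtain ⟨C1, hC1⟩ : ∃ C1 : ℕ, C1 = ∑ j, ∑ d ∈ Finset.range (D j + 1),
    ((c j d).totalDegree + (c j d).support.card) := ⟨_, rfl⟩
  obtain ⟨E, hE⟩ : ∃ E : Finset F, E = Finset.univ.biUnion fun j =>
    (Finset.range (D j + 1)).biUnion fun d => (c j d).coeffs := ⟨_, rfl⟩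
  refine ⟨(∏ i, t i) * (∏ j, nm j) * ∏ j, den j, ?_, C1 * (Fintype.card ρ + 1), E, ?_⟩
  · refine mul_ne_zero (mul_ne_zero ?_ ?_) ?_
    · exact Finset.prod_ne_zero_iff.2 fun i _ => ht i
    · exact Finset.prod_ne_zero_iff.2 fun j _ => hnm j
    · exact Finset.prod_ne_zero_iff.2 fun j _ => hden j
  intro L _ _ _ _ θ hθg Xb hXb hr
  rw [map_mul, map_mul, map_prod, map_prod, map_prod] at hθg
  have hθden : ∀ j, θ (den j) ≠ 0 := fun j =>
    Finset.prod_ne_zero_iff.1 (right_ne_zero_of_mul hθg) j (Finset.mem_univ j)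
  have hθnum : ∀ j, θ (nm j) ≠ 0 := fun j =>
    Finset.prod_ne_zero_iff.1 (right_ne_zero_of_mul (left_ne_zero_of_mul hθg)) j
      (Finset.mem_univ j)
  have hθt : ∀ i, θ (t i) ≠ 0 := fun i =>
    Finset.prod_ne_zero_iff.1 (left_ne_zero_of_mul (left_ne_zero_of_mul hθg)) i
      (Finset.mem_univ i)
  set rθ : ρ → L := fun i => θ (s i) / θ (t i) with hrθ
  have hrsum : ∑ p, hgt k (rθ p) ≤ Fintype.card ρ * Xb := by
    refine (Finset.sum_le_sum fun p _ => hr p).trans ?_
    rw [Finset.sum_const, nsmul_eq_mul, Finset.card_univ]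
  have hall : ∀ i : ρ ⊕ J, θ (Sum.elim t den i) ≠ 0 := by
    intro i
    cases i with
    | inl p => exact hθt p
    | inr j => exact hθden j
  obtain ⟨Bt, _, _, q, xt, jt, Θ, hjinj, hjq, hΘq, hjx, hΘx⟩ :=
    transfer (k := F) (ρ := ρ ⊕ J) θ (Sum.elim s num) (Sum.elim t den) hall
  have hjq' : (fun p => jt (q (Sum.inl p))) = rt := funext fun p => hjq (Sum.inl p)
  have hΘq' : (fun p => Θ (q (Sum.inl p))) = rθ := funext fun p => hΘq (Sum.inl p)
  intro j
  refine ⟨hθden j, ?_⟩
  obtain ⟨h1, h2⟩ := hkey j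
  have hjy := hjq (Sum.inr j)
  have hΘy := hΘq (Sum.inr j)
  simp only [Sum.elim_inr] at hjy hΘy
  set y := q (Sum.inr j) with hy
  set q' : ρ → Bt := fun p => q (Sum.inl p) with hq'
  have hjc : ∀ P : MvPolynomial ρ F, jt (aeval q' P) = aeval rt P := by
    intro P
    rw [← hjq', ← AlgHom.comp_apply, comp_aeval]
  have hΘc : ∀ P : MvPolynomial ρ F, Θ (aeval q' P) = aeval rθ P := by
    intro P
    rw [← hΘq', ← AlgHom.comp_apply, comp_aeval]
  have h3 : aeval q' (c j (D j)) * xt (dn j) = xt (nm j) := by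
    apply hjinj
    rw [map_mul, hjc, hjx, hjx, h1]
  have h4 : ∑ d ∈ Finset.range (D j + 1), aeval q' (c j d) * y ^ d = 0 := by
    apply hjinj
    rw [map_sum, map_zero, ← h2]
    refine Finset.sum_congr rfl fun d _ => ?_
    rw [map_mul, map_pow, hjc, hjy]
  have h5 := congrArg Θ h3
  rw [map_mul, hΘc, hΘx, hΘx] at h5
  have h6 : aeval rθ (c j (D j)) ≠ 0 := by
    intro h0
    rw [h0, zero_mul] at h5
    exact hθnum j h5.symm
  have h7 := congrArg Θ h4
  rw [map_sum, map_zero] at h7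
  have h8 : ∑ d ∈ Finset.range (D j + 1), aeval rθ (c j d) *
      (θ (num j) / θ (den j)) ^ d = 0 := by
    rw [← h7]
    refine Finset.sum_congr rfl fun d _ => ?_
    rw [map_mul, map_pow, hΘc, hΘy]
  have h9 := hgt_root (k := k) (fun d => aeval rθ (c j d)) h6 _ h8
  have h10 : hgt k (aeval rθ (c j (D j))) + ∑ d ∈ Finset.range (D j),
      hgt k (aeval rθ (c j d)) = ∑ d ∈ Finset.range (D j + 1),
      hgt k (aeval rθ (c j d)) := by
    rw [Finset.sum_range_succ, add_comm]
  rw [h10] at h9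
  set HE := ∑ e ∈ E, hgt k (algebraMap F L e) with hHE
  have hHE0 : 0 ≤ HE := Finset.sum_nonneg fun _ _ => hgt_nonneg _
  have hY0 : 0 ≤ Fintype.card ρ * Xb + HE := add_nonneg (mul_nonneg (by positivity) hXb) hHE0
  have h11 : ∑ d ∈ Finset.range (D j + 1), hgt k (aeval rθ (c j d)) ≤
      ∑ d ∈ Finset.range (D j + 1), (((c j d).totalDegree + (c j d).support.card : ℕ) : ℤ) *
        (Fintype.card ρ * Xb + HE) := by
    refine Finset.sum_le_sum fun d hd => (hgt_mvpolyF rθ _).trans ?_
    have h12 := coef_le (k := k) (L := L) (c j d) E (by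
      rw [hE]
      intro e he
      exact Finset.mem_biUnion.2
        ⟨j, Finset.mem_univ _, Finset.mem_biUnion.2 ⟨d, hd, he⟩⟩)
    have h13 := mul_le_mul_of_nonneg_left hrsum
      (by positivity : (0 : ℤ) ≤ ((c j d).totalDegree : ℤ))
    have h14 : (0 : ℤ) ≤ ((c j d).totalDegree : ℤ) * HE := mul_nonneg (by positivity) hHE0
    have h15 : (0 : ℤ) ≤ ((c j d).support.card : ℤ) * (Fintype.card ρ * Xb) :=
      mul_nonneg (by positivity) (mul_nonneg (by positivity) hXb)
    rw [← hHE] at h12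
    push_cast
    nlinarith
  rw [← Finset.sum_mul] at h11
  have h12 : ∑ d ∈ Finset.range (D j + 1),
      ((c j d).totalDegree + (c j d).support.card) ≤ C1 := by
    rw [hC1]
    exact Finset.single_le_sum (f := fun j =>
      ∑ d ∈ Finset.range (D j + 1), ((c j d).totalDegree + (c j d).support.card))
      (fun _ _ => Nat.zero_le _) (Finset.mem_univ j)
  have h13 : (∑ d ∈ Finset.range (D j + 1),
      (((c j d).totalDegree + (c j d).support.card : ℕ) : ℤ)) ≤ C1 := by
    exact_mod_cast h12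
  refine (h9.trans h11).trans ((mul_le_mul_of_nonneg_right h13 hY0).trans ?_)
  have h16 : (0 : ℤ) ≤ C1 * Xb := mul_nonneg (by positivity) hXb
  have h17 : (0 : ℤ) ≤ C1 * (Fintype.card ρ * HE) :=
    mul_nonneg (by positivity) (mul_nonneg (by positivity) hHE0)
  push_cast
  nlinarith

end Pool.Agent.W601.VF
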