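import Pool.Agent.W601.VF.Arr

/-!
General arrangements impose independent conditions.
-/

set_option autoImplicit false

namespace Pool.Agent.W601.VF

open MvPolynomial Module Matrix Pool.Agent.W601.SM

variable {κ : Type*} [Field κ]

variable {n k q : ℕ}

/-- different monomials of degree `k` -/
theorem exists_mon (hq : q ≤ (n + k).choose n) :
    ∃ m : Fin q → (Fin (n + 1) →₀ ℕ), Function.Injective m ∧ ∀ i, (m i).degree = k := by
  classical
  set S := (Finset.univ : Finset (Fin (n + 1))).finsuppAntidiag k with hS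
  have hcard : S.card = (n + k).choose n := by
    rw [hS, Finset.card_finsuppAntidiag_nat_eq_choose]
    simp only [Finset.card_univ, Fintype.card_fin]
    rw [show n + 1 + k - 1 = n + k by omega]
    exact (Nat.choose_symm_of_eq_add rfl).symm ▸ rfl
  have h1 : Fintype.card (Fin q) ≤ Fintype.card S := by
    rw [Fintype.card_fin, Fintype.card_coe, hcard]
    exact hq
  obtain ⟨f⟩ := Function.Embedding.nonempty_of_card_le h1
  refine ⟨fun i => (f i).1, fun i j h => f.injective (Subtype.ext h), fun i => ?_⟩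
  have h2 := Finset.mem_finsuppAntidiag.mp (f i).2
  rw [Finsupp.degree_eq_sum]
  exact h2.1

/-- the determinant of the monomials at variable points -/
noncomputable def Psi (m : Fin q → (Fin (n + 1) →₀ ℕ)) : MvPolynomial (Fin q × Fin (n + 1)) κ :=
  (Matrix.of fun i j => ∏ l, X (i, l) ^ m j l :
    Matrix (Fin q) (Fin q) (MvPolynomial (Fin q × Fin (n + 1)) κ)).det

/-- the exponents of the terms of the determinant -/
noncomputable def expo (m : Fin q → (Fin (n + 1) →₀ ℕ)) (σ : Equiv.Perm (Fin q)) :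
    (Fin q × Fin (n + 1)) →₀ ℕ :=
  Finsupp.equivFunOnFinite.symm fun x => m (σ x.1) x.2

theorem Psi_eq (m : Fin q → (Fin (n + 1) →₀ ℕ)) :
    Psi m = ∑ σ : Equiv.Perm (Fin q), monomial (expo m σ) ((Equiv.Perm.sign σ : ℤ) : κ) := by
  unfold Psi
  rw [← det_transpose, det_apply']
  refine Finset.sum_congr rfl fun σ _ => ?_
  have h1 : ∏ i, (Matrix.of fun i j => ∏ l, X (i, l) ^ m j l :
      Matrix (Fin q) (Fin q) (MvPolynomial (Fin q × Fin (n + 1)) κ))ᵀ (σ i) i
      = monomial (expo m σ) 1 := by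
    rw [monomial_eq, C_1, one_mul, Finsupp.prod_fintype _ _ (by intro; simp),
      Fintype.prod_prod_type]
    rfl
  rw [h1]
  have h2 : (((Equiv.Perm.sign σ : ℤ) : MvPolynomial (Fin q × Fin (n + 1)) κ))
      = C ((Equiv.Perm.sign σ : ℤ) : κ) := by simp
  rw [h2, C_mul_monomial, mul_one]

theorem Psi_ne {m : Fin q → (Fin (n + 1) →₀ ℕ)} (hm : Function.Injective m) :
    Psi (κ := κ) m ≠ 0 := by
  classical
  intro h0
  have h1 : coeff (expo m 1) (Psi (κ := κ) m) = 1 := by
    rw [Psi_eq, coeff_sum, Finset.sum_eq_single 1]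
    · simp
    · intro σ _ hσ
      rw [coeff_monomial, if_neg]
      intro h
      apply hσ
      ext i
      have h2 : m (σ i) = m i := by
        ext l
        have := congrArg (fun f => f (i, l)) h
        simpa [expo] using this
      rw [hm h2]
      rfl
    · simp
  rw [h0, coeff_zero] at h1
  exact zero_ne_one h1

theorem ind_of_Psi {m : Fin q → (Fin (n + 1) →₀ ℕ)} (hk : ∀ i, (m i).degree = k)
    {ℓ : Fin q → Fin (n + 1) → κ} (h : eval (fun x => ℓ x.1 x.2) (Psi m) ≠ 0) : Ind k ℓ := by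
  classical
  set M : Matrix (Fin q) (Fin q) κ := Matrix.of fun i j => ∏ l, ℓ i l ^ m j l with hM
  have hdet : eval (fun x => ℓ x.1 x.2) (Psi m) = M.det := by
    unfold Psi
    rw [RingHom.map_det]
    congr 1
    ext i j
    simp [hM, RingHom.mapMatrix_apply, Matrix.map_apply]
  rw [hdet] at h
  have hu : IsUnit M.det := isUnit_iff_ne_zero.mpr h
  have hev : ∀ (i j : Fin q) , eval (ℓ j) (∑ s, C (M⁻¹ s i) * ∏ l, X l ^ m s l : MvPolynomial (Fin (n + 1)) κ)
      = (1 : Matrix (Fin q) (Fin q) κ) j i := by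
    intro i j
    rw [← Matrix.mul_nonsing_inv M hu, Matrix.mul_apply, map_sum]
    refine Finset.sum_congr rfl fun s _ => ?_
    rw [map_mul, eval_C, map_prod, mul_comm]
    simp [hM]
  intro i
  refine ⟨∑ s, C (M⁻¹ s i) * ∏ l, X l ^ m s l, ?_, ?_, fun j hj => ?_⟩
  · refine IsHomogeneous.sum _ _ _ fun s _ => ?_
    have h1 : (∏ l, X l ^ m s l : MvPolynomial (Fin (n + 1)) κ) = monomial (m s) 1 := by
      rw [monomial_eq, C_1, one_mul, Finsupp.prod_fintype _ _ (by intro; simp)]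
    rw [h1, C_mul_monomial]
    exact isHomogeneous_monomial _ (hk s)
  · rw [hev, Matrix.one_apply_eq]
    exact one_ne_zero
  · rw [hev, Matrix.one_apply_ne hj]

/-- General points impose independent conditions on the forms of degree `k`. -/
theorem generic (hq : q ≤ (n + k).choose n) :
    ∃ Ψ : MvPolynomial (Fin q × Fin (n + 1)) κ, Ψ ≠ 0 ∧
      ∀ ℓ : Fin q → Fin (n + 1) → κ, eval (fun x => ℓ x.1 x.2) Ψ ≠ 0 → Ind k ℓ := by
  obtain ⟨m, hm, hk⟩ := exists_mon hq
  exact ⟨Psi m, Psi_ne hm, fun ℓ h => ind_of_Psi hk h⟩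

/-- for all large `q` there is a suitable degree -/
theorem numbers (n : ℕ) (hn : 1 ≤ n) (μ : ℝ) (hμ : 1 < μ) (K q : ℕ)
    (hK : 2 * n * μ ≤ K * (μ - 1)) (hq : (n + K).choose n < q) :
    ∃ k, q ≤ (n + k).choose n ∧
      2 * ((n + k - 1).choose (n - 1) : ℕ) * μ < q * (μ - 1) := by
  classical
  obtain ⟨m, rfl⟩ : ∃ m, n = m + 1 := ⟨n - 1, by omega⟩
  have hmono : ∀ k, (m + 1 + k).choose (m + 1) < (m + 1 + (k + 1)).choose (m + 1) := by
    intro k
    have h1 : (m + 1 + (k + 1)).choose (m + 1)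
        = (m + 1 + k).choose m + (m + 1 + k).choose (m + 1) := by
      rw [← add_assoc, Nat.choose_succ_succ]
    have h2 : 0 < (m + 1 + k).choose m := Nat.choose_pos (by omega)
    omega
  have hsm : StrictMono fun k => (m + 1 + k).choose (m + 1) := strictMono_nat_of_lt_succ hmono
  have hex : ∃ k, q ≤ (m + 1 + k).choose (m + 1) := ⟨q, hsm.id_le q⟩
  set k := Nat.find hex with hk
  have hk1 : q ≤ (m + 1 + k).choose (m + 1) := Nat.find_spec hex
  have hKk : K < k := by
    by_contra hcon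
    push Not at hcon
    have h1 : (m + 1 + k).choose (m + 1) ≤ (m + 1 + K).choose (m + 1) := hsm.monotone hcon
    omega
  obtain ⟨j, hj⟩ : ∃ j, k = j + 1 := ⟨k - 1, by omega⟩
  have hk2 : (m + 1 + j).choose (m + 1) < q := by
    have := Nat.find_min hex (m := j) (by omega)
    omega
  refine ⟨k, hk1, ?_⟩
  rw [hj]
  have e1 : m + 1 + (j + 1) - 1 = m + 1 + j := by omega
  have e2 : m + 1 - 1 = m := by omega
  rw [e1, e2]
  have h3 : (m + 1 + j).choose (m + 1) * (m + 1) = (m + 1 + j).choose m * (j + 1) := by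
    rw [Nat.choose_succ_right_eq]
    congr 1
    omega
  set c1 := (m + 1 + j).choose (m + 1) with hc1
  set c0 := (m + 1 + j).choose m with hc0
  have hc0pos : 0 < c0 := Nat.choose_pos (by omega)
  have hμ1 : 0 < μ - 1 := by linarith
  have h5 : ((K : ℝ)) ≤ (j + 1 : ℕ) := by
    exact_mod_cast (by omega : K ≤ j + 1)
  have h6 : 2 * ((m + 1 : ℕ) : ℝ) * μ ≤ (j + 1 : ℕ) * (μ - 1) :=
    hK.trans (mul_le_mul_of_nonneg_right h5 hμ1.le)
  have h7 : (c1 : ℝ) * (m + 1 : ℕ) = c0 * (j + 1 : ℕ) := by exact_mod_cast h3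
  have h8 : (c1 : ℝ) < q := by exact_mod_cast hk2
  have hmpos : (0 : ℝ) < (m + 1 : ℕ) := by positivity
  have h9 : (2 * (c0 : ℝ) * μ) * (m + 1 : ℕ) < (q * (μ - 1)) * (m + 1 : ℕ) := by
    calc (2 * (c0 : ℝ) * μ) * (m + 1 : ℕ) = c0 * (2 * ((m + 1 : ℕ) : ℝ) * μ) := by ring
      _ ≤ c0 * ((j + 1 : ℕ) * (μ - 1)) :=
          mul_le_mul_of_nonneg_left h6 (by exact_mod_cast hc0pos.le)
      _ = (c1 * (m + 1 : ℕ)) * (μ - 1) := by rw [h7]; ring
      _ < (q * (m + 1 : ℕ)) * (μ - 1) := by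
          apply mul_lt_mul_of_pos_right _ hμ1
          exact mul_lt_mul_of_pos_right h8 hmpos
      _ = _ := by ring
  exact lt_of_mul_lt_mul_right h9 hmpos.le

end Pool.Agent.W601.VF
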