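import Pool.Agent.W601.VF.Glob
import Pool.Agent.W601.VF.Gen
import Pool.Agent.W601.VF.AlgB
import Pool.Agent.W603.PV.Trunc

/-!
Varieties over a function field with a map to a projective space that is ramified over constant
hyperplanes: the height inequality for the image point.
-/

set_option autoImplicit false

namespace Pool.Agent.W601.VF

open FF MvPolynomial Pool.Agent.W603.LV Pool.Agent.W603.PV

universe u v w

variable {k : Type u} [Field k] {F : Type v} [Field F] [Algebra k F] {N n : ℕ}

/-- The form `∑ j, a j * φ j`. -/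
noncomputable def lform (φ : Fin (n + 1) → MvPolynomial (Fin (N + 1)) F) (a : Fin (n + 1) → k) :
    MvPolynomial (Fin (N + 1)) F :=
  ∑ j, C (algebraMap k F (a j)) * φ j

/-- The image of the point `x` under the map given by the forms `φ`. -/
noncomputable def img {L : Type w} [Field L] [Algebra F L]
    (φ : Fin (n + 1) → MvPolynomial (Fin (N + 1)) F) (x : Fin (N + 1) → L) : Fin (n + 1) → L :=
  fun j => aeval x (φ j)

/-- The multiplicity with which the image of `x` meets the hyperplane `a` at the place `P`. -/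
noncomputable def cont {L : Type w} [Field L] [Algebra k L] [Algebra F L] (P : Place k L)
    (φ : Fin (n + 1) → MvPolynomial (Fin (N + 1)) F) (a : Fin (n + 1) → k)
    (x : Fin (N + 1) → L) : ℤ :=
  P.ord (aeval x (lform φ a)) - pord P (img φ x)

/-- `x` represents a point of the projective variety with the homogeneous ideal `p`. -/
def IsPt {L : Type w} [Field L] [Algebra F L] (p : Ideal (MvPolynomial (Fin (N + 1)) F))
    (x : Fin (N + 1) → L) : Prop :=
  x ≠ 0 ∧ ∀ H ∈ p, aeval x H = 0

open Classical in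
/-- The map given by the forms `φ` from the projective variety `X` with the ideal `p` is ramified,
outside the divisor `Q = 0`, over the hyperplanes `ℓ i`, with the weights `w i`: for every point `x`
of `X` over a finite extension `L` of `F`, at every place of `L`, not over `S`, at which `x` does not
meet the divisor, the multiplicities `a i` with which the image of `x` meets the hyperplanes satisfy
`#{i | a i > 0} ≤ ∑ i, (1 - w i) * a i`. -/
def Ramified (p : Ideal (MvPolynomial (Fin (N + 1)) F)) (Q : MvPolynomial (Fin (N + 1)) F) (e : ℕ)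
    (φ : Fin (n + 1) → MvPolynomial (Fin (N + 1)) F) {q : ℕ} (ℓ : Fin q → Fin (n + 1) → k)
    (w : Fin q → ℝ) (S : Finset (Place k F)) : Prop :=
  ∀ (L : Type w) [Field L] [Algebra k L] [Algebra F L] [IsScalarTower k F L]
    [FiniteDimensional F L] (x : Fin (N + 1) → L), IsPt p x → aeval x Q ≠ 0 →
    (∀ i, aeval x (lform φ (ℓ i)) ≠ 0) → ∀ P : Place k L, (∀ v ∈ S, ¬ Over P v) →
    P ∉ meets (k := k) Q e x →
    ((Finset.univ.filter fun i => 0 < cont P φ (ℓ i) x).card : ℝ) ≤
      ∑ i, (1 - w i) * (cont P φ (ℓ i) x : ℝ)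

section heights

variable {L : Type w} [Field L] [Algebra k L] [IsFF k L]

theorem ratio_le [IsAlgClosed k] [CharZero k] {f : Fin (n + 1) → L} {l : Fin (n + 1)}
    (hl : f l ≠ 0) (j : Fin (n + 1)) : hgt k (f j / f l) ≤ pht k f := by
  classical
  obtain ⟨T, hT⟩ := exists_supp (k := k) Finset.univ f
  have h1 : ∀ j, ∀ P : Place k L, P.ord (f j) ≠ 0 → P ∈ T := fun j => hT j (Finset.mem_univ j)
  have h1' : ∀ P : Place k L, P.ord (f j / f l) ≠ 0 → P ∈ T := by
    intro P hP
    by_contra hcon
    apply hP
    by_cases hj : f j = 0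
    · rw [hj, zero_div, P.ord_zero]
    have h2 : P.ord (f j) = 0 := by by_contra h; exact hcon (h1 j P h)
    have h3 : P.ord (f l) = 0 := by by_contra h; exact hcon (h1 l P h)
    rw [P.ord_div hj hl, h2, h3]; rfl
  have h2 : pht k f = ∑ P ∈ T, (- pord P f) := by
    unfold pht
    rw [finsum_eq_sum_of_support_subset (s := T), Finset.sum_neg_distrib]
    intro P hP
    by_contra hcon
    apply hP
    obtain ⟨j, hj, h⟩ := exists_pord P ⟨l, hl⟩
    simp only
    rw [← h]
    by_contra h'; exact hcon (h1 j P h')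
  have h3 : ∑ P ∈ T, P.ord (f l) = 0 := sum_ord_finset _ T (h1 l)
  have h4 : ∑ P ∈ T, (- pord P f) = ∑ P ∈ T, (- pord P f + P.ord (f l)) := by
    rw [Finset.sum_add_distrib, h3, add_zero]
  rw [h2, h4, hgt_finset _ T h1']
  refine Finset.sum_le_sum fun P _ => ?_
  have h5 := pord_le P hl
  apply max_le
  · by_cases hj : f j = 0
    · rw [hj, zero_div, P.ord_zero]; omega
    · have := pord_le P hj
      rw [P.ord_div hj hl]
      omega
  · omega

theorem pht_nonneg [IsAlgClosed k] [CharZero k] {f : Fin (n + 1) → L} (hf : ∃ l, f l ≠ 0) :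
    0 ≤ pht k f := by
  obtain ⟨l, hl⟩ := hf
  exact (hgt_nonneg _).trans (ratio_le hl l)

theorem pht_const [IsAlgClosed k] [CharZero k] {f : Fin (n + 1) → L} {l : Fin (n + 1)}
    (hl : f l ≠ 0) {c : Fin (n + 1) → k} (hc : ∀ j, f j = f l * algebraMap k L (c j)) :
    pht k f = 0 := by
  have h0 : (fun j => f l * algebraMap k L (c j)) = f := (funext hc).symm
  have hcl : algebraMap k L (c l) ≠ 0 := by
    intro h
    have := hc l
    rw [h, mul_zero] at this
    exact hl this
  have h1 := pht_scale (k := k) (f := fun j => algebraMap k L (c j)) ⟨l, hcl⟩ hl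
  rw [h0] at h1
  rw [h1]
  unfold pht
  have h2 : (fun P : Place k L => pord P fun j => algebraMap k L (c j)) = fun _ => 0 := by
    funext P
    obtain ⟨j, hj, h⟩ := exists_pord P (f := fun j => algebraMap k L (c j)) ⟨l, hcl⟩
    rw [← h]
    exact P.ord_const (fun h => hj (by simp [h]))
  rw [h2, finsum_zero, neg_zero]

end heights

theorem aeval_lform {L : Type w} [Field L] [Algebra k L] [Algebra F L] [IsScalarTower k F L]
    {q : ℕ} {V X Y : Type*} [AddCommGroup V] [Module k V] [AddCommGroup X] [Module k X]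
    [AddCommGroup Y] [Module k Y] (R : Frame k (n + 1) q V X Y) {ℓ : Fin q → Fin (n + 1) → k}
    (hR : ∀ i, R.ℓ i = ll (ℓ i)) (φ : Fin (n + 1) → MvPolynomial (Fin (N + 1)) F)
    (x : Fin (N + 1) → L) (i : Fin q) :
    aeval x (lform φ (ℓ i)) = R.ℓR i (img φ x) := by
  classical
  unfold lform img Frame.ℓR
  rw [map_sum]
  refine Finset.sum_congr rfl fun j _ => ?_
  have h1 : ll (ℓ i) (Pi.single j 1) = ℓ i j := by
    rw [ll_apply, Finset.sum_eq_single j]
    · simp
    · intro b _ hb
      rw [Pi.single_eq_of_ne hb, mul_zero]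
    · simp
  rw [hR, h1, map_mul, aeval_C, ← IsScalarTower.algebraMap_apply, mul_comm]

variable [IsAlgClosed k] [CharZero k] [IsFF k F]

/-- The height inequality for the image point. -/
theorem part1 (hn : 1 ≤ n) {d q : ℕ} {ℓ : Fin q → Fin (n + 1) → k} (hℓ : Ind (d + 1) ℓ)
    {w : Fin q → ℝ} (hw : ∀ i, w i ≤ 1)
    (hq : 2 * (((n + d).choose (n - 1) : ℕ) : ℝ) < ∑ i, w i)
    {p : Ideal (MvPolynomial (Fin (N + 1)) F)} {Q : MvPolynomial (Fin (N + 1)) F} {e : ℕ}
    {φ : Fin (n + 1) → MvPolynomial (Fin (N + 1)) F} {S : Finset (Place k F)}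
    (hR : Ramified.{u, v, w} p Q e φ ℓ w S) :
    ∃ C : ℕ, ∀ (L : Type w) [Field L] [Algebra k L] [Algebra F L] [IsScalarTower k F L]
      [FiniteDimensional F L] (x : Fin (N + 1) → L), IsPt p x → aeval x Q ≠ 0 →
      (∀ i, aeval x (lform φ (ℓ i)) ≠ 0) →
      (∑ i, w i - 2 * (((n + d).choose (n - 1) : ℕ) : ℝ)) * (pht k (img φ x) : ℝ) ≤
        ∑ i, ((meets (k := k) Q e x ∩ {P | 0 < cont P φ (ℓ i) x}).ncard : ℝ) +
          (((n + d).choose (n - 1) : ℕ) : ℝ) * (canDeg k L : ℝ) +
          C * (Module.finrank F L : ℝ) := by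
  classical
  obtain ⟨R, hRℓ, hRb⟩ := exists_frame hn hℓ
  obtain ⟨C2, hC2⟩ := over_card.{u, v, w} (k := k) S
  obtain ⟨t, ht⟩ := IsFF.exists_transcendental (k := k) (K := F)
  set b := (n + d).choose (n - 1) with hb
  refine ⟨q * C2 + 2 * b * (hgt k t).toNat, ?_⟩
  intro L _ _ _ _ _ x hx hxQ hxℓ
  have hL : IsFF k L := isFF_of_finite (F := F)
  obtain ⟨hSfin, hScard⟩ := hC2 L
  have hq0 : Nonempty (Fin q) := by
    by_contra hcon
    rw [not_nonempty_iff] at hcon
    rw [Finset.univ_eq_empty, Finset.sum_empty] at hq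
    have : (0 : ℝ) ≤ (b : ℝ) := by positivity
    linarith
  obtain ⟨i0⟩ := hq0
  set f := img φ x with hf
  have hne : ∀ i, R.ℓR i f ≠ 0 := fun i => by
    rw [hf, ← aeval_lform R hRℓ]
    exact hxℓ i
  have hf0 : ∃ l, f l ≠ 0 := by
    by_contra hcon
    push Not at hcon
    apply hne i0
    unfold Frame.ℓR
    exact Finset.sum_eq_zero fun j _ => by rw [hcon j, zero_mul]
  have hx0 : ∃ j, x j ≠ 0 := by
    by_contra hcon
    push Not at hcon
    exact hx.1 (funext hcon)
  -- lower bound for the canonical degree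
  have hcan := canDeg_ge (k := k) (K := L) (t := algebraMap F L t)
    ((transcendental_algebraMap_iff (algebraMap F L).injective).2 ht)
  rw [hgt_algebraMap t] at hcan
  have ht0 : 0 ≤ hgt k t := hgt_nonneg _
  have htn : ((hgt k t).toNat : ℤ) = hgt k t := Int.toNat_of_nonneg ht0
  have hcan' : -(2 * ((hgt k t).toNat : ℝ) * (Module.finrank F L : ℝ)) ≤ (canDeg k L : ℝ) := by
    rw [← htn] at hcan
    have : ((-2 * ((Module.finrank F L : ℤ) * ((hgt k t).toNat : ℤ)) : ℤ) : ℝ) ≤
      (canDeg k L : ℝ) := by exact_mod_cast hcan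
    push_cast at this
    linarith
  have hnc : ∀ i, (0 : ℝ) ≤ ((meets (k := k) Q e x ∩ {P | 0 < cont P φ (ℓ i) x}).ncard : ℝ) :=
    fun i => by positivity
  have hb0 : (0 : ℝ) ≤ (b : ℝ) := by positivity
  have hm0 : (0 : ℝ) ≤ (Module.finrank F L : ℝ) := by positivity
  obtain ⟨D, hD⟩ := exists_der (k := k) (K := L)
  by_cases hconst : ∀ a b, f a * D (f b) - f b * D (f a) = 0
  · obtain ⟨l, hl⟩ := hf0
    have h1 : ∀ j, ∃ c : k, f j = f l * algebraMap k L c := by
      intro j
      have h2 : D (f j / f l) = 0 := by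
        have h3 : f l * (f j / f l) = f j := by field_simp
        have h4 := congrArg D h3
        rw [D.leibniz, smul_eq_mul, smul_eq_mul] at h4
        have h5 := hconst l j
        have h6 : f l * (f l * D (f j / f l)) = 0 := by
          have h7 : f l * D (f j / f l) = D (f j) - f j / f l * D (f l) := by
            rw [← h4]; ring
          rw [h7, mul_sub]
          have h8 : f l * (f j / f l * D (f l)) = f j * D (f l) := by field_simp
          rw [h8]
          exact h5
        exact (mul_eq_zero.1 ((mul_eq_zero.1 h6).resolve_left hl)).resolve_left hl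
      obtain ⟨c, hc⟩ := const_of_der hD h2
      exact ⟨c, by rw [← hc]; field_simp⟩
    choose c hc using h1
    rw [pht_const hl hc, Int.cast_zero, mul_zero]
    have h9 := mul_le_mul_of_nonneg_left hcan' hb0
    have h10 := Finset.sum_nonneg fun i (_ : i ∈ Finset.univ) => hnc i
    have h11 : (0 : ℝ) ≤ (q : ℝ) * C2 * (Module.finrank F L : ℝ) := by positivity
    push_cast
    nlinarith
  · push Not at hconst
    obtain ⟨a, c, hac⟩ := hconst
    have hMfin : (meets (k := k) Q e x).Finite := meets_finite Q e hx0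
    set B : Finset (Place k L) := hMfin.toFinset ∪ hSfin.toFinset with hB
    have hcnt : ∀ (P : Place k L) i, pord P f < P.ord (R.ℓR i f) ↔ 0 < cont P φ (ℓ i) x := by
      intro P i
      unfold cont
      rw [aeval_lform R hRℓ, sub_pos]
    have h1 := R.core_real hD hac hne w hw B (by
      intro P hP
      rw [hB, Finset.mem_union, not_or, Set.Finite.mem_toFinset, Set.Finite.mem_toFinset] at hP
      have h2 := hR L x hx hxQ hxℓ P (fun v hv h => hP.2 ⟨v, hv, h⟩) hP.1
      have h3 : (Finset.univ.filter fun i => pord P f < P.ord (R.ℓR i f)) =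
          Finset.univ.filter fun i => 0 < cont P φ (ℓ i) x := by
        ext i
        simp only [Finset.mem_filter, Finset.mem_univ, true_and]
        exact hcnt P i
      rw [h3]
      refine le_trans (le_of_eq ?_) (h2.trans (le_of_eq ?_))
      · congr!
      · refine Finset.sum_congr rfl fun i _ => ?_
        unfold cont
        rw [aeval_lform R hRℓ])
    rw [hRb] at h1
    -- the sum over the bad places
    have h2 : ∑ P ∈ B, ((Finset.univ.filter fun i => pord P f < P.ord (R.ℓR i f)).card : ℝ) ≤
        ∑ P ∈ hMfin.toFinset,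
          ((Finset.univ.filter fun i => pord P f < P.ord (R.ℓR i f)).card : ℝ) +
        ∑ P ∈ hSfin.toFinset,
          ((Finset.univ.filter fun i => pord P f < P.ord (R.ℓR i f)).card : ℝ) := by
      rw [hB, ← Finset.sum_union_inter]
      exact le_add_of_nonneg_right (Finset.sum_nonneg fun _ _ => by positivity)
    have h3 : ∑ P ∈ hSfin.toFinset,
        ((Finset.univ.filter fun i => pord P f < P.ord (R.ℓR i f)).card : ℝ) ≤
        q * C2 * (Module.finrank F L : ℝ) := by
      have h4 : ∀ P ∈ hSfin.toFinset,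
          ((Finset.univ.filter fun i => pord P f < P.ord (R.ℓR i f)).card : ℝ) ≤ q := by
        intro P _
        have := Finset.card_filter_le (Finset.univ : Finset (Fin q))
          fun i => pord P f < P.ord (R.ℓR i f)
        rw [Finset.card_univ, Fintype.card_fin] at this
        exact_mod_cast this
      refine (Finset.sum_le_sum h4).trans ?_
      rw [Finset.sum_const, nsmul_eq_mul, ← Set.ncard_eq_toFinset_card _ hSfin]
      have h5 : (({P : Place k L | ∃ v ∈ S, Over P v}.ncard : ℕ) : ℝ) ≤
          C2 * (Module.finrank F L : ℝ) := by exact_mod_cast hScard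
      have h6 := mul_le_mul_of_nonneg_right h5 (by positivity : (0 : ℝ) ≤ q)
      linarith
    have h4 : ∑ P ∈ hMfin.toFinset,
        ((Finset.univ.filter fun i => pord P f < P.ord (R.ℓR i f)).card : ℝ) =
        ∑ i, ((meets (k := k) Q e x ∩ {P | 0 < cont P φ (ℓ i) x}).ncard : ℝ) := by
      have h5 : ∀ P : Place k L,
          ((Finset.univ.filter fun i => pord P f < P.ord (R.ℓR i f)).card : ℝ) =
            ∑ i, if pord P f < P.ord (R.ℓR i f) then (1 : ℝ) else 0 := by
        intro P
        rw [Finset.card_filter]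
        push_cast
        rfl
      rw [Finset.sum_congr rfl fun P _ => h5 P, Finset.sum_comm]
      refine Finset.sum_congr rfl fun i _ => ?_
      rw [← Finset.sum_filter, Finset.sum_const, nsmul_eq_mul, mul_one]
      have hfin : (meets (k := k) Q e x ∩ {P | 0 < cont P φ (ℓ i) x}).Finite :=
        hMfin.inter_of_left _
      rw [Set.ncard_eq_toFinset_card _ hfin]
      congr 2
      ext P
      simp only [Finset.mem_filter, Set.Finite.mem_toFinset, Set.mem_inter_iff, Set.mem_ofPred_eq]
      rw [hcnt]
    have h5 : (0 : ℝ) ≤ 2 * b * ((hgt k t).toNat : ℝ) * (Module.finrank F L : ℝ) := by positivity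
    push_cast
    rw [h4] at h2
    linarith

end Pool.Agent.W601.VF
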