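import Pool.Agent.W601.VF.Cov2

/-!
The height inequality for projective varieties over a function field, in homogeneous form.
-/

set_option autoImplicit false

namespace Pool.Agent.W601.VF

open FF MvPolynomial Pool.Agent.W603.LV Pool.Agent.W603.PV

universe u v w

variable {k : Type u} [Field k] {F : Type v} [Field F] [Algebra k F] {N n : ℕ}

theorem lform_hom {φ : Fin (n + 1) → MvPolynomial (Fin (N + 1)) F} {δ : ℕ}
    (hφ : ∀ j, (φ j).IsHomogeneous δ) (a : Fin (n + 1) → k) : (lform φ a).IsHomogeneous δ := by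
  unfold lform
  exact IsHomogeneous.sum _ _ _ fun j _ => by
    simpa using (isHomogeneous_C (Fin (N + 1)) (algebraMap k F (a j))).mul (hφ j)

variable [IsAlgClosed k] [CharZero k] [IsFF k F]

/-- The height inequality. -/
theorem part2 (hn : 1 ≤ n) {d q : ℕ} {ℓ : Fin q → Fin (n + 1) → k} (hℓ : Ind (d + 1) ℓ)
    {w : Fin q → ℝ} (hw : ∀ i, w i ≤ 1)
    (hq : 2 * (((n + d).choose (n - 1) : ℕ) : ℝ) < ∑ i, w i)
    {p : Ideal (MvPolynomial (Fin (N + 1)) F)} [p.IsPrime] (hp : IsHomog p) (hx : ∃ j, X j ∉ p)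
    {Q : MvPolynomial (Fin (N + 1)) F} {e : ℕ} (hQ : Q.IsHomogeneous e) (hQp : Q ∉ p)
    {φ : Fin (n + 1) → MvPolynomial (Fin (N + 1)) F} {δ : ℕ} (hφ : ∀ j, (φ j).IsHomogeneous δ)
    (hℓp : ∀ i, lform φ (ℓ i) ∉ p) {S : Finset (Place k F)}
    (hR : Ramified.{u, v, w} p Q e φ ℓ w S) (hgen : GenFin p φ) :
    ∃ (D : ℕ) (G : MvPolynomial (Fin (N + 1)) F), G.IsHomogeneous D ∧ G ∉ p ∧ Q ∣ G ∧
      ∃ (B C : ℕ), ∀ (L : Type w) [Field L] [Algebra k L] [Algebra F L] [IsScalarTower k F L]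
      [FiniteDimensional F L] (x : Fin (N + 1) → L), (∀ H ∈ p, aeval x H = 0) → aeval x G ≠ 0 →
        pht k x ≤ B * (canDeg k L + (meets (k := k) Q e x).ncard) + C * Module.finrank F L := by
  obtain ⟨g, hg, B, C, h⟩ := affine_bound hn hℓ hw hq hx hR hgen
  obtain ⟨l, hl⟩ := hx
  obtain ⟨r, hr⟩ := exists_component hp hg
  refine ⟨r + e + 1 + q * δ, homogeneousComponent r g * Q * X l * ∏ i, lform φ (ℓ i), ?_, ?_,
    ((Dvd.intro_left _ rfl).mul_right _).mul_right _, B, C, ?_⟩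
  · refine (((homogeneousComponent_isHomogeneous r g).mul hQ).mul (isHomogeneous_X _ _)).mul ?_
    have h1 := IsHomogeneous.prod Finset.univ (fun i => lform φ (ℓ i)) (fun _ => δ)
      fun i _ => lform_hom hφ (ℓ i)
    simpa using h1
  · intro h
    rcases Ideal.IsPrime.mem_or_mem inferInstance h with h | h
    · rcases Ideal.IsPrime.mem_or_mem inferInstance h with h | h
      · rcases Ideal.IsPrime.mem_or_mem inferInstance h with h | h
        · exact hr h
        · exact hQp h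
      · exact hl h
    · obtain ⟨i, _, hi⟩ := (Ideal.IsPrime.prod_mem_iff (hp := inferInstance)).1 h
      exact hℓp i hi
  · intro L _ _ _ _ _ x hxp hxG
    rw [map_mul, map_mul, map_mul, aeval_X, map_prod] at hxG
    have hxℓ : ∀ i, aeval x (lform φ (ℓ i)) ≠ 0 := fun i =>
      Finset.prod_ne_zero_iff.1 (right_ne_zero_of_mul hxG) i (Finset.mem_univ i)
    have hxG' := left_ne_zero_of_mul hxG
    have hxl : x l ≠ 0 := right_ne_zero_of_mul hxG'
    have hxQ : aeval x Q ≠ 0 := right_ne_zero_of_mul (left_ne_zero_of_mul hxG')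
    have hxg := left_ne_zero_of_mul (left_ne_zero_of_mul hxG')
    have hL : IsFF k L := isFF_of_finite (F := F)
    have hinf : Infinite L := by
      have : CharZero L := charZero_of_injective_algebraMap (algebraMap k L).injective
      infer_instance
    obtain ⟨c, hc, hcG⟩ := exists_scale g x r hxg
    have h1 := h L (fun j => c * x j) ⟨fun h0 => ?_, fun H hH => ?_⟩ ?_ (fun i => ?_) hcG
    · rwa [pht_scale ⟨l, hxl⟩ hc, meets_scale hQ ⟨l, hxl⟩ hxQ hc] at h1
    · exact mul_ne_zero hc hxl (congrFun h0 l)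
    · rw [aeval_scale_sum]
      refine Finset.sum_eq_zero fun e' _ => ?_
      rw [hxp _ (hp H hH e'), mul_zero]
    · rw [aeval_scale hQ]
      exact mul_ne_zero (pow_ne_zero _ hc) hxQ
    · rw [aeval_scale (lform_hom hφ (ℓ i))]
      exact mul_ne_zero (pow_ne_zero _ hc) (hxℓ i)

omit [IsAlgClosed k] [CharZero k] in
theorem ind_zero {q : ℕ} {ℓ : Fin q → Fin (n + 1) → k} (h : Ind 0 ℓ) : q ≤ 1 := by
  by_contra hcon
  push Not at hcon
  obtain ⟨P, hP, h1, h2⟩ := h ⟨0, by omega⟩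
  have h3 := h2 ⟨1, hcon⟩ (by simp)
  have h4 : P = C (coeff 0 P) := by
    rw [← totalDegree_eq_zero_iff_eq_C]
    by_cases hP0 : P = 0
    · rw [hP0, totalDegree_zero]
    · exact hP.totalDegree hP0
  rw [h4, eval_C] at h1 h3
  exact h1 h3

omit [IsAlgClosed k] [CharZero k] in
theorem pos_degree {q d : ℕ} {ℓ : Fin q → Fin (n + 1) → k} (h : Ind d ℓ) {w : Fin q → ℝ}
    (hw : ∀ i, w i ≤ 1) (hq : 2 * (((n + d - 1).choose (n - 1) : ℕ) : ℝ) < ∑ i, w i)
    (hn : 1 ≤ n) : ∃ d', d = d' + 1 := by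
  rcases Nat.eq_zero_or_pos d with rfl | hd
  · exfalso
    have h1 := ind_zero h
    have h2 : ∑ i, w i ≤ (q : ℝ) := by
      refine (Finset.sum_le_sum fun i (_ : i ∈ Finset.univ) => hw i).trans ?_
      rw [Finset.sum_const, Finset.card_univ, Fintype.card_fin]
      simp
    have h3 : (1 : ℝ) ≤ (((n + 0 - 1).choose (n - 1) : ℕ) : ℝ) := by
      have : 0 < (n + 0 - 1).choose (n - 1) := Nat.choose_pos (by omega)
      exact_mod_cast this
    have h4 : (q : ℝ) ≤ 1 := by exact_mod_cast h1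
    linarith
  · exact ⟨d - 1, by omega⟩

/-- for all large `q` there is a suitable degree -/
theorem numbers2 (n : ℕ) (hn : 1 ≤ n) (s : ℝ) (hs : 0 < s) (K q : ℕ)
    (hK : 2 * n ≤ K * s) (hq : (n + K).choose n < q) :
    ∃ k, q ≤ (n + k).choose n ∧ 2 * (((n + k - 1).choose (n - 1) : ℕ) : ℝ) < q * s := by
  classical
  obtain ⟨m, rfl⟩ : ∃ m, n = m + 1 := ⟨n - 1, by omega⟩
  have hmono : ∀ k, (m + 1 + k).choose (m + 1) < (m + 1 + (k + 1)).choose (m + 1) := by
    intro k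
    have h1 : (m + 1 + (k + 1)).choose (m + 1)
        = (m + 1 + k).choose m + (m + 1 + k).choose (m + 1) := by
      rw [← add_assoc, Nat.choose_succ_succ]
    have h2 : 0 < (m + 1 + k).choose m := Nat.choose_pos (by omega)
    omega
  have hsm : StrictMono fun k => (m + 1 + k).choose (m + 1) := strictMono_nat_of_lt_succ hmono
  have hex : ∃ k, q ≤ (m + 1 + k).choose (m + 1) := ⟨q, hsm.id_le q⟩
  set k := Nat.find hex with hk
  have hk1 : q ≤ (m + 1 + k).choose (m + 1) := Nat.find_spec hex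
  have hKk : K < k := by
    by_contra hcon
    push Not at hcon
    have h1 : (m + 1 + k).choose (m + 1) ≤ (m + 1 + K).choose (m + 1) := hsm.monotone hcon
    omega
  obtain ⟨j, hj⟩ : ∃ j, k = j + 1 := ⟨k - 1, by omega⟩
  have hk2 : (m + 1 + j).choose (m + 1) < q := by
    have := Nat.find_min hex (m := j) (by omega)
    omega
  refine ⟨k, hk1, ?_⟩
  rw [hj]
  have e1 : m + 1 + (j + 1) - 1 = m + 1 + j := by omega
  have e2 : m + 1 - 1 = m := by omega
  rw [e1, e2]
  have h3 : (m + 1 + j).choose (m + 1) * (m + 1) = (m + 1 + j).choose m * (j + 1) := by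
    rw [Nat.choose_succ_right_eq]
    congr 1
    omega
  set c1 := (m + 1 + j).choose (m + 1) with hc1
  set c0 := (m + 1 + j).choose m with hc0
  have hc0pos : 0 < c0 := Nat.choose_pos (by omega)
  have h5 : ((K : ℝ)) ≤ (j + 1 : ℕ) := by
    exact_mod_cast (by omega : K ≤ j + 1)
  have h6 : 2 * ((m + 1 : ℕ) : ℝ) ≤ (j + 1 : ℕ) * s :=
    hK.trans (mul_le_mul_of_nonneg_right h5 hs.le)
  have h7 : (c1 : ℝ) * (m + 1 : ℕ) = c0 * (j + 1 : ℕ) := by exact_mod_cast h3
  have h8 : (c1 : ℝ) < q := by exact_mod_cast hk2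
  have hmpos : (0 : ℝ) < (m + 1 : ℕ) := by positivity
  have h9 : (2 * (c0 : ℝ)) * (m + 1 : ℕ) < (q * s) * (m + 1 : ℕ) := by
    calc (2 * (c0 : ℝ)) * (m + 1 : ℕ) = c0 * (2 * ((m + 1 : ℕ) : ℝ)) := by ring
      _ ≤ c0 * ((j + 1 : ℕ) * s) :=
          mul_le_mul_of_nonneg_left h6 (by exact_mod_cast hc0pos.le)
      _ = (c1 * (m + 1 : ℕ)) * s := by rw [h7]; ring
      _ < (q * (m + 1 : ℕ)) * s := by
          apply mul_lt_mul_of_pos_right _ hs
          exact mul_lt_mul_of_pos_right h8 hmpos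
      _ = _ := by ring
  exact lt_of_mul_lt_mul_right h9 hmpos.le

end Pool.Agent.W601.VF
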