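import Pool.Agent.W601.VF.Cov3

/-!
The height inequalities as named statements.
-/

set_option autoImplicit false

namespace Pool.Agent.W601.VF

open FF MvPolynomial Pool.Agent.W603.LV Pool.Agent.W603.PV

universe u v w

variable {k : Type u} [Field k] {F : Type v} [Field F] [Algebra k F] {N n : ℕ}

/-- The height inequality with truncated counting functions for the image `img φ x` of the points
`x`, outside the divisor `Q = 0`, of the projective variety with the ideal `p`, with weights `w i`
of the hyperplanes `ℓ i` and the constant `b`. -/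
def ImageBound (p : Ideal (MvPolynomial (Fin (N + 1)) F)) (Q : MvPolynomial (Fin (N + 1)) F)
    (e : ℕ) (φ : Fin (n + 1) → MvPolynomial (Fin (N + 1)) F) {q : ℕ}
    (ℓ : Fin q → Fin (n + 1) → k) (w : Fin q → ℝ) (b : ℕ) : Prop :=
  ∃ C : ℕ, ∀ (L : Type w) [Field L] [Algebra k L] [Algebra F L] [IsScalarTower k F L]
    [FiniteDimensional F L] (x : Fin (N + 1) → L), IsPt p x → aeval x Q ≠ 0 →
    (∀ i, aeval x (lform φ (ℓ i)) ≠ 0) →
    (∑ i, w i - 2 * (b : ℝ)) * (pht k (img φ x) : ℝ) ≤
      ∑ i, ((meets (k := k) Q e x ∩ {P | 0 < cont P φ (ℓ i) x}).ncard : ℝ) +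
        (b : ℝ) * (canDeg k L : ℝ) + C * (Module.finrank F L : ℝ)

variable (k) in
/-- Vojta's height inequality for the projective variety with the homogeneous prime ideal `p` and
the divisor given by the form `Q` of degree `e`: there are a proper closed subset `G = 0` of the
variety, containing the divisor, and constants `B`, `C` such that the height of every point `x` over
a finite extension `L` of `F` outside this subset is at most `B (2 g(L) - 2 + N) + C [L : F]`, where
`N` is the number of places of `L` at which `x` meets the divisor. -/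
def Vojta (p : Ideal (MvPolynomial (Fin (N + 1)) F)) (Q : MvPolynomial (Fin (N + 1)) F)
    (e : ℕ) : Prop :=
  ∃ (D : ℕ) (G : MvPolynomial (Fin (N + 1)) F), G.IsHomogeneous D ∧ G ∉ p ∧ Q ∣ G ∧
    ∃ (B C : ℕ), ∀ (L : Type w) [Field L] [Algebra k L] [Algebra F L]
      [IsScalarTower k F L] [FiniteDimensional F L] (x : Fin (N + 1) → L),
      (∀ H ∈ p, aeval x H = 0) → aeval x G ≠ 0 →
      pht k x ≤ B * (canDeg k L + (meets (k := k) Q e x).ncard) + C * Module.finrank F L

/-- `p` is the homogeneous ideal of an integral projective variety which is not contained in the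
divisor of the form `Q` of degree `e`, the `φ j` are forms of the same degree, the map given by them
is generically finite onto its image, and the image is not contained in one of the hyperplanes
`ℓ i`. -/
structure Admissible (p : Ideal (MvPolynomial (Fin (N + 1)) F)) [p.IsPrime]
    (Q : MvPolynomial (Fin (N + 1)) F) (e : ℕ)
    (φ : Fin (n + 1) → MvPolynomial (Fin (N + 1)) F) {q : ℕ}
    (ℓ : Fin q → Fin (n + 1) → k) : Prop where
  homog : IsHomog p
  proper : ∃ j, X j ∉ p
  homQ : Q.IsHomogeneous e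
  notQ : Q ∉ p
  homφ : ∃ δ : ℕ, ∀ j, (φ j).IsHomogeneous δ
  notin : ∀ i, lform φ (ℓ i) ∉ p
  gen : GenFin p φ

variable [IsAlgClosed k] [CharZero k] [IsFF k F]

theorem main (hn : 1 ≤ n) {d q : ℕ} {ℓ : Fin q → Fin (n + 1) → k} (hℓ : Ind d ℓ)
    {w : Fin q → ℝ} (hw : ∀ i, w i ≤ 1)
    (hq : 2 * (((n + d - 1).choose (n - 1) : ℕ) : ℝ) < ∑ i, w i)
    (p : Ideal (MvPolynomial (Fin (N + 1)) F)) (Q : MvPolynomial (Fin (N + 1)) F) (e : ℕ)
    (φ : Fin (n + 1) → MvPolynomial (Fin (N + 1)) F) (S : Finset (Place k F))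
    (hR : Ramified.{u, v, w} p Q e φ ℓ w S) :
    ImageBound.{u, v, w} p Q e φ ℓ w ((n + d - 1).choose (n - 1)) ∧
      ∀ [p.IsPrime], Admissible p Q e φ ℓ → Vojta.{u, v, w} k p Q e := by
  obtain ⟨d', rfl⟩ := pos_degree hℓ hw hq hn
  refine ⟨part1 hn hℓ hw hq hR, ?_⟩
  intro _ hA
  obtain ⟨δ, hδ⟩ := hA.homφ
  exact part2 hn hℓ hw hq hA.homog hA.proper hA.homQ hA.notQ hδ hA.notin hR hA.gen

end Pool.Agent.W601.VF
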