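import Pool.Agent.W601.VF.Frame

/-!
The determinants of a frame with entries in an algebra over the field.
-/

set_option autoImplicit false

namespace Pool.Agent.W601.VF

open Matrix Module Pool.Agent.W601.SM

namespace Frame

variable {κ : Type*} [Field κ] {m q : ℕ} {L X Y : Type*} [AddCommGroup L] [Module κ L]
    [AddCommGroup X] [Module κ X] [AddCommGroup Y] [Module κ Y] (Q : Frame κ m q L X Y)
    {R : Type*} [CommRing R] [Algebra κ R] {R' : Type*} [CommRing R'] [Algebra κ R']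

/-- the matrix of the small determinant -/
noncomputable def Mψ (b : Fin Q.b → X) (u : Fin m → R) :
    Matrix (Fin Q.a ⊕ Fin Q.b) (Fin Q.a ⊕ Fin Q.b) R :=
  Matrix.of fun c => Sum.elim
    (fun s => ∑ j, u j * algebraMap κ R (Q.eX.repr (Q.S.mL (Pi.single j 1) (Q.eL s)) c))
    fun t => algebraMap κ R (Q.eX.repr (b t) c)

/-- the matrix of the large determinant -/
noncomputable def MΦ (A : Fin Q.c → Y) (b : Fin Q.b → X) (u v : Fin m → R) :
    Matrix (Fin Q.c ⊕ ((Fin Q.a ⊕ Fin Q.b) ⊕ Fin Q.b)) (Fin Q.c ⊕ ((Fin Q.a ⊕ Fin Q.b) ⊕ Fin Q.b))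
      R :=
  Matrix.of fun c => Sum.elim (fun a => algebraMap κ R (Q.eY.repr (A a) c)) (Sum.elim
    (fun s => ∑ j, u j * algebraMap κ R (Q.eY.repr (Q.S.mX (Pi.single j 1) (Q.eX s)) c))
    fun t => ∑ j, v j * algebraMap κ R (Q.eY.repr (Q.S.mX (Pi.single j 1) (b t)) c))

/-- the small determinant -/
noncomputable def ψR (b : Fin Q.b → X) (u : Fin m → R) : R := (Q.Mψ b u).det

/-- the large determinant -/
noncomputable def ΦR (A : Fin Q.c → Y) (b : Fin Q.b → X) (u v : Fin m → R) : R :=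
  (Q.MΦ A b u v).det

theorem map_ψR (φ : R →ₐ[κ] R') (b : Fin Q.b → X) (u : Fin m → R) :
    φ (Q.ψR b u) = Q.ψR b fun j => φ (u j) := by
  unfold ψR
  rw [AlgHom.map_det]
  congr 1
  ext c r
  rw [AlgHom.mapMatrix_apply, Matrix.map_apply]
  unfold Mψ
  rw [Matrix.of_apply, Matrix.of_apply]
  rcases r with s | t
  · simp only [Sum.elim_inl, map_sum, map_mul, AlgHom.commutes]
  · simp only [Sum.elim_inr, AlgHom.commutes]

theorem map_ΦR (φ : R →ₐ[κ] R') (A : Fin Q.c → Y) (b : Fin Q.b → X) (u v : Fin m → R) :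
    φ (Q.ΦR A b u v) = Q.ΦR A b (fun j => φ (u j)) fun j => φ (v j) := by
  unfold ΦR
  rw [AlgHom.map_det]
  congr 1
  ext c r
  rw [AlgHom.mapMatrix_apply, Matrix.map_apply]
  unfold MΦ
  rw [Matrix.of_apply, Matrix.of_apply]
  rcases r with s | s | t
  · simp only [Sum.elim_inl, AlgHom.commutes]
  · simp only [Sum.elim_inl, Sum.elim_inr, map_sum, map_mul, AlgHom.commutes]
  · simp only [Sum.elim_inr, map_sum, map_mul, AlgHom.commutes]

theorem lin_sum {V : Type*} [AddCommGroup V] [Module κ V] {V' : Type*} [AddCommGroup V']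
    [Module κ V'] (φ : (Fin m → κ) →ₗ[κ] V →ₗ[κ] V') (u : Fin m → κ) (x : V) :
    φ u x = ∑ j, u j • φ (Pi.single j 1) x := by
  classical
  have h : u = ∑ j, u j • (Pi.single j 1 : Fin m → κ) := by
    funext i
    rw [Finset.sum_apply, Finset.sum_eq_single i]
    · simp
    · intro j _ hj
      simp [Pi.single_eq_of_ne hj.symm]
    · simp
  conv_lhs => rw [h, map_sum, LinearMap.sum_apply]
  exact Finset.sum_congr rfl fun j _ => by rw [map_smul, LinearMap.smul_apply]

theorem ψR_base (b : Fin Q.b → X) (u : Fin m → κ) : Q.ψR b u = Q.ψ b u := by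
  unfold ψR ψ Sys.ψ
  rw [Basis.det_apply]
  congr 1
  ext c r
  rw [Basis.toMatrix_apply]
  unfold Mψ
  rw [Matrix.of_apply]
  rcases r with s | t
  · simp only [Sys.rowsψ, Sum.elim_inl]
    rw [lin_sum Q.S.mL u, map_sum, Finset.sum_apply']
    exact Finset.sum_congr rfl fun j _ => by
      rw [map_smul, Finsupp.smul_apply, smul_eq_mul, Algebra.algebraMap_self_apply]
  · simp [Sys.rowsψ]

theorem ΦR_base (A : Fin Q.c → Y) (b : Fin Q.b → X) (u v : Fin m → κ) :
    Q.ΦR A b u v = Q.Φ A b u v := by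
  unfold ΦR Φ Sys.Φ
  rw [Basis.det_apply]
  congr 1
  ext c r
  rw [Basis.toMatrix_apply]
  unfold MΦ
  rw [Matrix.of_apply]
  rcases r with s | s | t
  · simp [Sys.rowsΦ]
  · simp only [Sys.rowsΦ, Sum.elim_inl, Sum.elim_inr]
    rw [lin_sum Q.S.mX u, map_sum, Finset.sum_apply']
    exact Finset.sum_congr rfl fun j _ => by
      rw [map_smul, Finsupp.smul_apply, smul_eq_mul, Algebra.algebraMap_self_apply]
  · simp only [Sys.rowsΦ, Sum.elim_inr]
    rw [lin_sum Q.S.mX v, map_sum, Finset.sum_apply']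
    exact Finset.sum_congr rfl fun j _ => by
      rw [map_smul, Finsupp.smul_apply, smul_eq_mul, Algebra.algebraMap_self_apply]

section transfer

variable [Infinite κ]

/-- the generic first vector -/
noncomputable def gu (κ : Type*) [Field κ] (m : ℕ) :
    Fin m → MvPolynomial ((Fin m ⊕ Fin m) ⊕ Unit) κ := fun j => MvPolynomial.X (Sum.inl (Sum.inl j))

/-- the generic second vector -/
noncomputable def gv (κ : Type*) [Field κ] (m : ℕ) :
    Fin m → MvPolynomial ((Fin m ⊕ Fin m) ⊕ Unit) κ := fun j => MvPolynomial.X (Sum.inl (Sum.inr j))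

/-- the generic scalar -/
noncomputable def gt (κ : Type*) [Field κ] (m : ℕ) : MvPolynomial ((Fin m ⊕ Fin m) ⊕ Unit) κ :=
  MvPolynomial.X (Sum.inr ())

theorem ratioR (A : Fin Q.c → Y) (b b' : Fin Q.b → X) (u v : Fin m → R) :
    Q.ΦR A b' u v * Q.ψR b u = Q.ΦR A b u v * Q.ψR b' u := by
  have key : Q.ΦR A b' (gu κ m) (gv κ m) * Q.ψR b (gu κ m)
      = Q.ΦR A b (gu κ m) (gv κ m) * Q.ψR b' (gu κ m) := by
    apply MvPolynomial.funext
    intro s
    rw [← MvPolynomial.aeval_eq_eval, map_mul, map_mul, map_ΦR, map_ψR, map_ΦR, map_ψR]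
    simp only [ΦR_base, ψR_base]
    exact Q.ratio A b b' _ _
  have h := congrArg (MvPolynomial.aeval (Sum.elim (Sum.elim u v) fun _ => (0 : R))) key
  rw [map_mul, map_mul, map_ΦR, map_ψR, map_ΦR, map_ψR] at h
  simpa [gu, gv] using h

theorem ΦR_shift (A : Fin Q.c → Y) (b : Fin Q.b → X) (u v : Fin m → R) (t : R) :
    Q.ΦR A b u (fun j => v j + t * u j) = Q.ΦR A b u v := by
  have key : Q.ΦR A b (gu κ m) (fun j => gv κ m j + gt κ m * gu κ m j)
      = Q.ΦR A b (gu κ m) (gv κ m) := by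
    apply MvPolynomial.funext
    intro s
    rw [← MvPolynomial.aeval_eq_eval, map_ΦR, map_ΦR]
    simp only [ΦR_base, map_add, map_mul]
    exact Q.Φ_shift A b _ _ _
  have h := congrArg (MvPolynomial.aeval (Sum.elim (Sum.elim u v) fun _ => t)) key
  rw [map_ΦR, map_ΦR] at h
  simpa [gu, gv, gt] using h

theorem ΦR_smul (A : Fin Q.c → Y) (b : Fin Q.b → X) (u v : Fin m → R) (t : R) :
    Q.ΦR A b u (fun j => t * v j) = Q.ΦR A b u v * t ^ Q.b := by
  have key : Q.ΦR A b (gu κ m) (fun j => gt κ m * gv κ m j)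
      = Q.ΦR A b (gu κ m) (gv κ m) * gt κ m ^ Q.b := by
    apply MvPolynomial.funext
    intro s
    rw [← MvPolynomial.aeval_eq_eval, map_mul, map_pow, map_ΦR, map_ΦR]
    simp only [ΦR_base, map_mul]
    exact Q.Φ_smul A b _ _ _
  have h := congrArg (MvPolynomial.aeval (Sum.elim (Sum.elim u v) fun _ => t)) key
  rw [map_mul, map_pow, map_ΦR, map_ΦR] at h
  simpa [gu, gv, gt] using h

theorem ΦR_smul' (A : Fin Q.c → Y) (b : Fin Q.b → X) (u v : Fin m → R) (t : R) :
    Q.ΦR A b (fun j => t * u j) v = Q.ΦR A b u v * t ^ (Q.a + Q.b) := by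
  have key : Q.ΦR A b (fun j => gt κ m * gu κ m j) (gv κ m)
      = Q.ΦR A b (gu κ m) (gv κ m) * gt κ m ^ (Q.a + Q.b) := by
    apply MvPolynomial.funext
    intro s
    rw [← MvPolynomial.aeval_eq_eval, map_mul, map_pow, map_ΦR, map_ΦR]
    simp only [ΦR_base, map_mul]
    exact Q.Φ_smul' A b _ _ _
  have h := congrArg (MvPolynomial.aeval (Sum.elim (Sum.elim u v) fun _ => t)) key
  rw [map_mul, map_pow, map_ΦR, map_ΦR] at h
  simpa [gu, gv, gt] using h

theorem ψR_smul (b : Fin Q.b → X) (u : Fin m → R) (t : R) :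
    Q.ψR b (fun j => t * u j) = Q.ψR b u * t ^ Q.a := by
  have key : Q.ψR b (fun j => gt κ m * gu κ m j) = Q.ψR b (gu κ m) * gt κ m ^ Q.a := by
    apply MvPolynomial.funext
    intro s
    rw [← MvPolynomial.aeval_eq_eval, map_mul, map_pow, map_ψR, map_ψR]
    simp only [ψR_base, map_mul]
    exact Q.ψ_smul b _ _
  have h := congrArg (MvPolynomial.aeval (Sum.elim (Sum.elim u u) fun _ => t)) key
  rw [map_mul, map_pow, map_ψR, map_ψR] at h
  simpa [gu, gt] using h

end transfer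

/-- the linear form `ℓ i` on `R ^ m` -/
noncomputable def ℓR (i : Fin q) (u : Fin m → R) : R :=
  ∑ j, u j * algebraMap κ R (Q.ℓ i (Pi.single j 1))

theorem entry (i : Fin q) (u : Fin m → R) (x : X) :
    ∑ j, u j * algebraMap κ R (Q.eY.repr (Q.S.mX (Pi.single j 1) x) (Q.col i))
      = Q.ℓR i u * algebraMap κ R (Q.evX i x) := by
  unfold ℓR
  rw [Finset.sum_mul]
  refine Finset.sum_congr rfl fun j _ => ?_
  rw [Q.repr_col, Q.mul, map_mul, mul_assoc]

end Frame

end Pool.Agent.W601.VF
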