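import Pool.Agent.W601.VF.Poly

/-!
Frames over a field: spaces of forms of three consecutive degrees, bases, evaluations.
-/

set_option autoImplicit false

namespace Pool.Agent.W601.VF

open Matrix Module Pool.Agent.W601.SM

/-- spaces of forms of three consecutive degrees, bases, and evaluations at `q` points -/
structure Frame (κ : Type*) [Field κ] (m q : ℕ) (L X Y : Type*) [AddCommGroup L] [Module κ L]
    [AddCommGroup X] [Module κ X] [AddCommGroup Y] [Module κ Y] where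
  S : Sys κ (Fin m → κ) L X Y
  ℓ : Fin q → (Fin m → κ) →ₗ[κ] κ
  evX : Fin q → X →ₗ[κ] κ
  evY : Fin q → Y →ₗ[κ] κ
  mul : ∀ i u x, evY i (S.mX u x) = ℓ i u * evX i x
  a : ℕ
  b : ℕ
  c : ℕ
  eL : Basis (Fin a) κ L
  eX : Basis (Fin a ⊕ Fin b) κ X
  eY : Basis (Fin c ⊕ ((Fin a ⊕ Fin b) ⊕ Fin b)) κ Y
  col : Fin q → (Fin c ⊕ ((Fin a ⊕ Fin b) ⊕ Fin b))
  col_inj : Function.Injective col
  repr_col : ∀ i y, eY.repr y (col i) = evY i y
  surjX : ∀ t : Fin q → κ, ∃ x, ∀ i, evX i x = t i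

namespace Frame

variable {κ : Type*} [Field κ] {m q : ℕ} {L X Y : Type*} [AddCommGroup L] [Module κ L]
    [AddCommGroup X] [Module κ X] [AddCommGroup Y] [Module κ Y] (Q : Frame κ m q L X Y)

/-- the small determinant -/
noncomputable def ψ (b : Fin Q.b → X) (u : Fin m → κ) : κ := Q.S.ψ Q.eL Q.eX b u

/-- the large determinant -/
noncomputable def Φ (A : Fin Q.c → Y) (b : Fin Q.b → X) (u v : Fin m → κ) : κ :=
  Q.S.Φ Q.eX Q.eY A b u v

theorem exists_b {u : Fin m → κ} (hu : u ≠ 0) : ∃ b, Q.ψ b u ≠ 0 := Q.S.exists_b Q.eL Q.eX hu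

theorem ratio (A : Fin Q.c → Y) (b b' : Fin Q.b → X) (u v : Fin m → κ) :
    Q.Φ A b' u v * Q.ψ b u = Q.Φ A b u v * Q.ψ b' u :=
  Q.S.ratio Q.eL Q.eX Q.eY A b b' u v

theorem Φ_shift (A : Fin Q.c → Y) (b : Fin Q.b → X) (u v : Fin m → κ) (t : κ) :
    Q.Φ A b u (v + t • u) = Q.Φ A b u v := Q.S.Φ_shift Q.eX Q.eY A b u v t

theorem Φ_smul (A : Fin Q.c → Y) (b : Fin Q.b → X) (u v : Fin m → κ) (t : κ) :
    Q.Φ A b u (t • v) = Q.Φ A b u v * t ^ Q.b := by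
  have := Q.S.Φ_smul Q.eX Q.eY A b u v t
  rwa [Fintype.card_fin] at this

theorem ψ_smul (b : Fin Q.b → X) (u : Fin m → κ) (t : κ) :
    Q.ψ b (t • u) = Q.ψ b u * t ^ Q.a := by
  unfold ψ Sys.ψ
  have h := det_family_mul Q.eX (Q.S.rowsψ Q.eL b u) (Q.S.rowsψ Q.eL b (t • u))
    (Matrix.diagonal (Sum.elim (fun _ => t) fun _ => 1)) (by
      intro r
      rw [Finset.sum_eq_single r]
      · rw [Matrix.diagonal_apply_eq]
        rcases r with s | i
        · simp [Sys.rowsψ]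
        · simp [Sys.rowsψ]
      · intro x _ hx; rw [Matrix.diagonal_apply_ne _ hx, zero_smul]
      · simp)
  rw [h, det_diagonal, Fintype.prod_sum_type]
  simp

/-- scaling of the first vector -/
theorem Φ_smul' (A : Fin Q.c → Y) (b : Fin Q.b → X) (u v : Fin m → κ) (t : κ) :
    Q.Φ A b (t • u) v = Q.Φ A b u v * t ^ (Q.a + Q.b) := by
  unfold Φ Sys.Φ
  have h := det_family_mul Q.eY (Q.S.rowsΦ Q.eX A b u v) (Q.S.rowsΦ Q.eX A b (t • u) v)
    (Matrix.diagonal (Sum.elim (fun _ => 1) (Sum.elim (fun _ => t) fun _ => 1))) (by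
      intro r
      rw [Finset.sum_eq_single r]
      · rw [Matrix.diagonal_apply_eq]
        rcases r with s | i | i
        · simp [Sys.rowsΦ]
        · simp [Sys.rowsΦ]
        · simp [Sys.rowsΦ]
      · intro x _ hx; rw [Matrix.diagonal_apply_ne _ hx, zero_smul]
      · simp)
  rw [h, det_diagonal, Fintype.prod_sum_type, Fintype.prod_sum_type]
  simp

/-- the forms vanishing at the points -/
def I : Submodule κ Y := ⨅ i, LinearMap.ker (Q.evY i)

theorem mem_I {y : Y} : y ∈ Q.I ↔ ∀ i, Q.evY i y = 0 := by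
  unfold I
  simp

theorem I_sup [Infinite κ] {u v : Fin m → κ} (h : ∀ i, Q.ℓ i u ≠ 0 ∨ Q.ℓ i v ≠ 0) :
    Q.I ⊔ (LinearMap.range (Q.S.mX u) ⊔ LinearMap.range (Q.S.mX v)) = ⊤ := by
  obtain ⟨β, hβ⟩ : ∃ β : κ, ∀ i, Q.ℓ i (u + β • v) ≠ 0 := by
    have hfin : (Set.range fun i => -(Q.ℓ i u) / Q.ℓ i v).Finite := Set.finite_range _
    obtain ⟨β, hβ⟩ := ((hfin.union (Set.finite_singleton 0)).infinite_compl).nonempty
    refine ⟨β, fun i hi => ?_⟩
    rw [map_add, map_smul, smul_eq_mul] at hi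
    have hβ0 : β ≠ 0 := fun h0 => hβ (Or.inr h0)
    by_cases hv : Q.ℓ i v = 0
    · rw [hv, mul_zero, add_zero] at hi
      rcases h i with h1 | h1
      · exact h1 hi
      · exact h1 hv
    · apply hβ
      left
      refine ⟨i, ?_⟩
      simp only
      rw [div_eq_iff hv]
      linear_combination -hi
  rw [eq_top_iff]
  intro y _
  obtain ⟨x, hx⟩ := Q.surjX fun i => Q.evY i y / Q.ℓ i (u + β • v)
  have h1 : y = (y - Q.S.mX (u + β • v) x) + (Q.S.mX u x + Q.S.mX v (β • x)) := by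
    rw [map_add, LinearMap.add_apply, map_smul, LinearMap.smul_apply, map_smul]
    abel
  rw [h1]
  refine Submodule.add_mem_sup (Q.mem_I.mpr fun i => ?_)
    (Submodule.add_mem_sup ⟨_, rfl⟩ ⟨_, rfl⟩)
  rw [map_sub, Q.mul, hx, mul_div_cancel₀ _ (hβ i), sub_self]

/-- choice of `A` -/
theorem exists_A [Infinite κ] {u v : Fin m → κ} (hu : u ≠ 0) (hv : ∀ t : κ, v ≠ t • u)
    (h : ∀ i, Q.ℓ i u ≠ 0 ∨ Q.ℓ i v ≠ 0) :
    ∃ A : Fin Q.c → Y, (∀ a, A a ∈ Q.I) ∧ ∃ b, Q.ψ b u ≠ 0 ∧ Q.Φ A b u v ≠ 0 :=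
  Q.S.exists_A Q.eL Q.eX Q.eY hu hv Q.I (Q.I_sup h)

end Frame

end Pool.Agent.W601.VF
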