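import Pool.Agent.W601.VF.Loc
import Pool.Agent.W603.PV.Main

/-!
The height inequality for points of projective space over a function field.
-/

set_option autoImplicit false

namespace Pool.Agent.W601.VF

open Matrix Module FF Pool.Agent.W603.LV Pool.Agent.W603.PV Pool.Agent.W601.SM

universe u v

variable {k : Type u} [Field k] {K : Type v} [Field K] [Algebra k K]

namespace Frame

variable {n q : ℕ} {L X Y : Type*} [AddCommGroup L] [Module k L]
    [AddCommGroup X] [Module k X] [AddCommGroup Y] [Module k Y] (Q : Frame k (n + 1) q L X Y)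

theorem map_ℓR {R R' : Type*} [CommRing R] [Algebra k R] [CommRing R'] [Algebra k R']
    (φ : R →ₐ[k] R') (i : Fin q) (u : Fin (n + 1) → R) :
    φ (Q.ℓR i u) = Q.ℓR i fun j => φ (u j) := by
  unfold ℓR
  simp only [map_sum, map_mul, AlgHom.commutes]

theorem ℓR_base (i : Fin q) (u : Fin (n + 1) → k) : Q.ℓR i u = Q.ℓ i u := by
  classical
  unfold ℓR
  have h : u = ∑ j, u j • (Pi.single j 1 : Fin (n + 1) → k) := by
    funext i
    rw [Finset.sum_apply, Finset.sum_eq_single i]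
    · simp
    · intro j _ hj
      simp [Pi.single_eq_of_ne hj.symm]
    · simp
  conv_rhs => rw [h, map_sum]
  exact Finset.sum_congr rfl fun j _ => by
    rw [map_smul, smul_eq_mul, Algebra.algebraMap_self_apply]

theorem red_ℓ (P : Place k K) {u : Fin (n + 1) → K} (hu : ∀ j, Ge P 0 (u j)) {c : Fin (n + 1) → k}
    (hc : ∀ j, Ge P 1 (u j - algebraMap k K (c j))) (i : Fin q) :
    Ge P 0 (Q.ℓR i u) ∧ Ge P 1 (Q.ℓR i u - algebraMap k K (Q.ℓ i c)) := by
  have h := red_mv P hu hc (Q.ℓR i (fun j => MvPolynomial.X j))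
  rw [map_ℓR, map_ℓR] at h
  simpa only [MvPolynomial.aeval_X, ℓR_base] using h

theorem ne_zero_of_red (P : Place k K) {x : K} {c : k} (hx : x ≠ 0) (hxo : P.ord x = 0)
    (h : Ge P 1 (x - algebraMap k K c)) : c ≠ 0 := by
  rintro rfl
  rw [map_zero, sub_zero] at h
  have := h.resolve_left hx
  omega

variable [IsAlgClosed k] [CharZero k] [IsFF k K]

/-- Choice of the auxiliary function. -/
theorem exists_W {D : Derivation k K K} (hD : D ≠ 0) {f : Fin (n + 1) → K} {a b : Fin (n + 1)}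
    (hab : f a * D (f b) - f b * D (f a) ≠ 0) (hne : ∀ i, Q.ℓR i f ≠ 0) :
    ∃ A : Fin Q.c → Y, (∀ a, A a ∈ Q.I) ∧ ∃ b0, Q.ψR b0 f ≠ 0 ∧
      Q.ΦR A b0 f (fun j => D (f j)) ≠ 0 := by
  classical
  have : Infinite k := IsAlgClosed.instInfinite
  obtain ⟨T1, hT1⟩ := exists_supp (k := k) Finset.univ f
  obtain ⟨T2, hT2⟩ := exists_supp (k := k) Finset.univ fun i => Q.ℓR i f
  obtain ⟨T3, hT3⟩ := exists_supp (k := k) (Finset.univ : Finset (Fin 1))
    ![f a * D (f b) - f b * D (f a)]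
  obtain ⟨P, hP⟩ := exists_place_not_mem (k := k) (K := K) (T1 ∪ T2 ∪ T3 ∪
    (vo_finite hD).toFinset)
  simp only [Finset.mem_union, not_or] at hP
  obtain ⟨⟨⟨hP1, hP2⟩, hP3⟩, hP4⟩ := hP
  have h1 : ∀ j, P.ord (f j) = 0 := fun j => by
    by_contra h; exact hP1 (hT1 j (Finset.mem_univ _) P h)
  have h2 : ∀ i, P.ord (Q.ℓR i f) = 0 := fun i => by
    by_contra h; exact hP2 (hT2 i (Finset.mem_univ _) P h)
  have h3 : P.ord (f a * D (f b) - f b * D (f a)) = 0 := by
    by_contra h; exact hP3 (hT3 0 (Finset.mem_univ _) P h)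
  have h4 : vo P D = 0 := by
    by_contra h; exact hP4 (by simpa using h)
  have hu : ∀ j, Ge P 0 (f j) := fun j => Or.inr (h1 j).ge
  have hv : ∀ j, Ge P 0 (D (f j)) := by
    intro j
    obtain ⟨g, hg, e⟩ := der_mul P (ord_unif P) hD (hu j)
    rw [e]
    have h5 : Ge P 0 (D (unif P)) := Or.inr (by
      change 0 ≤ vo P D
      omega)
    simpa using h5.mul hg
  choose c hc using fun j => exists_const P (hu j)
  choose d hd using fun j => exists_const P (hv j)
  have hcd : c a * d b - c b * d a ≠ 0 := by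
    apply ne_zero_of_red P hab h3
    have h6 := (red_mv P (f := Sum.elim f fun j => D (f j)) (c := Sum.elim c d)
      (fun j => by rcases j with j | j; exacts [hu j, hv j])
      (fun j => by rcases j with j | j; exacts [hc j, hd j])
      (MvPolynomial.X (Sum.inl a) * MvPolynomial.X (Sum.inr b)
        - MvPolynomial.X (Sum.inl b) * MvPolynomial.X (Sum.inr a))).2
    simpa only [map_sub, map_mul, MvPolynomial.aeval_X, Sum.elim_inl, Sum.elim_inr] using h6
  have hc0 : c ≠ 0 := by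
    rintro h0
    apply hcd
    rw [h0]; simp
  have hdc : ∀ t : k, d ≠ t • c := by
    intro t h0
    apply hcd
    rw [h0, Pi.smul_apply, Pi.smul_apply, smul_eq_mul, smul_eq_mul]
    ring
  have hℓc : ∀ i, Q.ℓ i c ≠ 0 := fun i =>
    ne_zero_of_red P (hne i) (h2 i) (Q.red_ℓ P hu hc i).2
  obtain ⟨A, hA, b0, hb0, hΦ⟩ := Q.exists_A hc0 hdc fun i => Or.inl (hℓc i)
  refine ⟨A, hA, b0, ?_, ?_⟩
  · obtain ⟨h7, h8⟩ := Q.red_ψ P hu hc b0
    exact (ne_of_red P hb0 h7 h8).1
  · intro h0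
    have h9 := Q.red_Φ P hu hv hc hd A b0
    rw [h0, zero_sub] at h9
    have h10 := h9.neg
    rw [neg_neg] at h10
    exact hΦ (const_zero P h10)

/-- The global inequality. -/
theorem core {D : Derivation k K K} (hD : D ≠ 0) {f : Fin (n + 1) → K} {a b : Fin (n + 1)}
    (hab : f a * D (f b) - f b * D (f a) ≠ 0) (hne : ∀ i, Q.ℓR i f ≠ 0)
    (T : Finset (Place k K)) (hT : ∀ P, pord P f ≠ 0 → P ∈ T) (hTv : ∀ P, vo P D ≠ 0 → P ∈ T) :
    ∑ P ∈ T, ∑ i, max (P.ord (Q.ℓR i f) - pord P f - 1) 0 ≤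
      2 * Q.b * pht k f + Q.b * canDeg k K := by
  classical
  have hf : ∃ j, f j ≠ 0 := by
    by_contra hcon
    push Not at hcon
    apply hab
    rw [hcon a, hcon b]; simp
  obtain ⟨A, hA, b0, hb0, hΦ⟩ := Q.exists_W hD hab hne
  obtain ⟨T1, hT1⟩ := exists_supp (k := k) (Finset.univ : Finset (Fin 2))
    ![Q.ΦR A b0 f (fun j => D (f j)), Q.ψR b0 f]
  set T' := T ∪ T1 with hT'
  have hs1 : ∑ P ∈ T', P.ord (Q.ΦR A b0 f (fun j => D (f j))) = 0 :=
    sum_ord_finset _ T' fun P hP => Finset.mem_union_right _ (hT1 0 (Finset.mem_univ _) P hP)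
  have hs2 : ∑ P ∈ T', P.ord (Q.ψR b0 f) = 0 :=
    sum_ord_finset _ T' fun P hP => Finset.mem_union_right _ (hT1 1 (Finset.mem_univ _) P hP)
  have hs3 : ∑ P ∈ T', vo P D = - canDeg k K :=
    canDeg_finset hD T' fun P hP => Finset.mem_union_left _ (hTv P hP)
  have hs4 : ∑ P ∈ T', pord P f = - pht k f := by
    unfold pht
    rw [neg_neg, finsum_eq_sum_of_support_subset (s := T')]
    intro P hP
    exact Finset.mem_coe.2 (Finset.mem_union_left _ (hT P hP))
  have h1 := Finset.sum_le_sum fun P (_ : P ∈ T') => Q.local_est P hD hf hA hb0 hΦ hne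
  rw [Finset.sum_sub_distrib, hs1, hs2, Finset.sum_add_distrib, Finset.sum_add_distrib,
    ← Finset.mul_sum, ← Finset.mul_sum, hs3, hs4] at h1
  have h2 : ∑ P ∈ T, ∑ i, max (P.ord (Q.ℓR i f) - pord P f - 1) 0 ≤
      ∑ P ∈ T', ∑ i, max (P.ord (Q.ℓR i f) - pord P f - 1) 0 :=
    Finset.sum_le_sum_of_subset_of_nonneg Finset.subset_union_left fun P _ _ =>
      Finset.sum_nonneg fun i _ => le_max_right _ _
  linarith

omit [IsAlgClosed k] [CharZero k] [IsFF k K] in
theorem ℓR_ge (P : Place k K) (f : Fin (n + 1) → K) (i : Fin q) (h : Q.ℓR i f ≠ 0) :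
    pord P f ≤ P.ord (Q.ℓR i f) := by
  have h1 : Ge P (pord P f) (Q.ℓR i f) := by
    unfold ℓR
    refine Ge.sum _ _ fun j _ => ?_
    have := (ge_pord P f j).mul (Ge.const (P := P) (Q.ℓ i (Pi.single j 1)))
    rwa [add_zero] at this
  exact h1.resolve_left h

open Classical in
/-- The global inequality with weights. -/
theorem core_real {D : Derivation k K K} (hD : D ≠ 0) {f : Fin (n + 1) → K} {a b : Fin (n + 1)}
    (hab : f a * D (f b) - f b * D (f a) ≠ 0) (hne : ∀ i, Q.ℓR i f ≠ 0)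
    (w : Fin q → ℝ) (hw : ∀ i, w i ≤ 1) (B : Finset (Place k K))
    (hB : ∀ P ∉ B, ((Finset.univ.filter fun i => pord P f < P.ord (Q.ℓR i f)).card : ℝ) ≤
      ∑ i, (1 - w i) * ((P.ord (Q.ℓR i f) - pord P f : ℤ) : ℝ)) :
    (∑ i, w i - 2 * Q.b) * (pht k f : ℝ) ≤
      ∑ P ∈ B, ((Finset.univ.filter fun i => pord P f < P.ord (Q.ℓR i f)).card : ℝ)
        + Q.b * (canDeg k K : ℝ) := by
  have hf : ∃ j, f j ≠ 0 := by
    by_contra hcon
    push Not at hcon
    apply hab
    rw [hcon a, hcon b]; simp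
  obtain ⟨T1, hT1⟩ := exists_supp (k := k) Finset.univ f
  obtain ⟨T2, hT2⟩ := exists_supp (k := k) Finset.univ fun i => Q.ℓR i f
  set T : Finset (Place k K) := T1 ∪ T2 ∪ (vo_finite hD).toFinset ∪ B with hT
  have hTp : ∀ P, pord P f ≠ 0 → P ∈ T := by
    intro P hP
    obtain ⟨j, _, hj⟩ := exists_pord P hf
    rw [← hj] at hP
    have := hT1 j (Finset.mem_univ _) P hP
    simp [hT, this]
  have hTv : ∀ P, vo P D ≠ 0 → P ∈ T := by
    intro P hP
    simp [hT, hP]
  have hTl : ∀ i, ∀ P : Place k K, P.ord (Q.ℓR i f) ≠ 0 → P ∈ T := by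
    intro i P hP
    have := hT2 i (Finset.mem_univ _) P hP
    simp [hT, this]
  have hBT : B ⊆ T := by
    intro P hP
    simp [hT, hP]
  have h1 := Q.core hD hab hne T hTp hTv
  have hs4 : ∑ P ∈ T, pord P f = - pht k f := by
    unfold pht
    rw [neg_neg, finsum_eq_sum_of_support_subset (s := T)]
    intro P hP
    exact Finset.mem_coe.2 (hTp P hP)
  have hsa : ∀ i, ∑ P ∈ T, (P.ord (Q.ℓR i f) - pord P f) = pht k f := by
    intro i
    rw [Finset.sum_sub_distrib, hs4, sum_ord_finset _ T (hTl i)]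
    ring
  have h2 : ∑ P ∈ T, ∑ i, w i * ((P.ord (Q.ℓR i f) - pord P f : ℤ) : ℝ) =
      (∑ i, w i) * (pht k f : ℝ) := by
    rw [Finset.sum_comm, Finset.sum_mul]
    refine Finset.sum_congr rfl fun i _ => ?_
    rw [← Finset.mul_sum, ← hsa i]
    push_cast
    rfl
  have h3 : ∀ P ∈ T, ∑ i, w i * ((P.ord (Q.ℓR i f) - pord P f : ℤ) : ℝ) ≤
      ((∑ i, max (P.ord (Q.ℓR i f) - pord P f - 1) 0 : ℤ) : ℝ) +
        (if P ∈ B then ((Finset.univ.filter fun i => pord P f < P.ord (Q.ℓR i f)).card : ℝ)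
          else 0) := by
    intro P _
    have h4 : ∑ i, max (P.ord (Q.ℓR i f) - pord P f - 1) 0 =
        ∑ i, (P.ord (Q.ℓR i f) - pord P f) -
          ((Finset.univ.filter fun i => pord P f < P.ord (Q.ℓR i f)).card : ℤ) := by
      rw [Finset.card_filter]
      push_cast
      rw [← Finset.sum_sub_distrib]
      refine Finset.sum_congr rfl fun i _ => ?_
      have := Q.ℓR_ge P f i (hne i)
      split_ifs with h
      · rw [max_eq_left (by omega)]
      · rw [max_eq_right (by omega)]; omega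
    have h4' : ((∑ i, max (P.ord (Q.ℓR i f) - pord P f - 1) 0 : ℤ) : ℝ) =
        ∑ i, ((P.ord (Q.ℓR i f) - pord P f : ℤ) : ℝ) -
          ((Finset.univ.filter fun i => pord P f < P.ord (Q.ℓR i f)).card : ℝ) := by
      rw [h4]
      push_cast
      rfl
    have h5 : ∑ i, (1 - w i) * ((P.ord (Q.ℓR i f) - pord P f : ℤ) : ℝ) =
        ∑ i, ((P.ord (Q.ℓR i f) - pord P f : ℤ) : ℝ) -
          ∑ i, w i * ((P.ord (Q.ℓR i f) - pord P f : ℤ) : ℝ) := by
      rw [← Finset.sum_sub_distrib]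
      exact Finset.sum_congr rfl fun i _ => by ring
    have h6 : 0 ≤ ∑ i, (1 - w i) * ((P.ord (Q.ℓR i f) - pord P f : ℤ) : ℝ) :=
      Finset.sum_nonneg fun i _ => mul_nonneg (sub_nonneg.2 (hw i)) (by
        exact_mod_cast sub_nonneg.2 (Q.ℓR_ge P f i (hne i)))
    rw [h4']
    split_ifs with h
    · linarith
    · have := hB P h
      linarith
  have h7 := Finset.sum_le_sum h3
  rw [h2, Finset.sum_add_distrib, Finset.sum_ite_mem, Finset.inter_eq_right.2 hBT] at h7
  have h8 : (∑ P ∈ T, ((∑ i, max (P.ord (Q.ℓR i f) - pord P f - 1) 0 : ℤ) : ℝ)) ≤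
      2 * Q.b * (pht k f : ℝ) + Q.b * (canDeg k K : ℝ) := by
    exact_mod_cast h1
  linarith

end Frame

end Pool.Agent.W601.VF
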