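import Pool.Agent.W601.VF.Ext
import Pool.Agent.W603.PV.Hgt

/-!
The order of the auxiliary function at a place of a function field.
-/

set_option autoImplicit false

namespace Pool.Agent.W601.VF

open Matrix Module FF Pool.Agent.W603.LV Pool.Agent.W603.PV Pool.Agent.W601.SM

universe u v

variable {k : Type u} [Field k] {K : Type v} [Field K] [Algebra k K]

theorem ge_det' (P : Place k K) {ρ : Type*} [Fintype ρ] [DecidableEq ρ] (M : Matrix ρ ρ K)
    (o : ρ → ℤ) (hM : ∀ c r, Ge P (o c) (M c r)) : Ge P (∑ c, o c) M.det := by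
  rw [← det_transpose, Matrix.det_apply']
  refine Ge.sum _ _ fun σ _ => ?_
  have h1 := (Ge.intCast (P := P) (Equiv.Perm.sign σ : ℤ)).mul
    (Ge.prod Finset.univ (fun i => Mᵀ (σ i) i) o (fun i _ => hM _ _))
  rwa [zero_add] at h1

theorem red_mv {σ : Type*} (P : Place k K) {f : σ → K} (hf : ∀ j, Ge P 0 (f j)) {c : σ → k}
    (hc : ∀ j, Ge P 1 (f j - algebraMap k K (c j))) (H : MvPolynomial σ k) :
    Ge P 0 (MvPolynomial.aeval f H) ∧
      Ge P 1 (MvPolynomial.aeval f H - algebraMap k K (MvPolynomial.aeval c H)) := by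
  induction H using MvPolynomial.induction_on with
  | C a =>
    rw [MvPolynomial.aeval_C, MvPolynomial.aeval_C, Algebra.algebraMap_self_apply, sub_self]
    exact ⟨Ge.const a, Ge.zero⟩
  | add p q hp hq =>
    rw [map_add, map_add, map_add, add_sub_add_comm]
    exact ⟨hp.1.add hq.1, hp.2.add hq.2⟩
  | mul_X p j hp =>
    rw [map_mul, MvPolynomial.aeval_X, map_mul, MvPolynomial.aeval_X, map_mul]
    have e : MvPolynomial.aeval f p * f j -
        algebraMap k K (MvPolynomial.aeval c p) * algebraMap k K (c j) =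
        MvPolynomial.aeval f p * (f j - algebraMap k K (c j)) +
          (MvPolynomial.aeval f p - algebraMap k K (MvPolynomial.aeval c p)) *
            algebraMap k K (c j) := by ring
    rw [e]
    refine ⟨by simpa using hp.1.mul (hf j), Ge.add ?_ ?_⟩
    · simpa using hp.1.mul (hc j)
    · simpa using hp.2.mul (Ge.const (P := P) (c j))

namespace Frame

variable {m q : ℕ} {L X Y : Type*} [AddCommGroup L] [Module k L]
    [AddCommGroup X] [Module k X] [AddCommGroup Y] [Module k Y] (Q : Frame k m q L X Y)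

theorem sum_col (β : Fin q → ℤ) :
    ∑ c, ∑ i ∈ Finset.univ.filter (fun i => Q.col i = c), β i = ∑ i, β i := by
  classical
  exact Finset.sum_fiberwise_of_maps_to (fun _ _ => Finset.mem_univ _) _

theorem filter_col (i : Fin q) : Finset.univ.filter (fun j => Q.col j = Q.col i) = {i} := by
  ext j
  simp only [Finset.mem_filter, Finset.mem_univ, true_and, Finset.mem_singleton]
  exact Q.col_inj.eq_iff

theorem Φ_ord (P : Place k K) {A : Fin Q.c → Y} (hA : ∀ a, A a ∈ Q.I) (b : Fin Q.b → X)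
    {u v : Fin m → K} (hu : ∀ j, Ge P 0 (u j)) (hv : ∀ j, Ge P 0 (v j)) (o : Fin q → ℤ)
    (h1 : ∀ i, Ge P (o i) (Q.ℓR i u)) (h2 : ∀ i, Ge P (o i) (Q.ℓR i v)) :
    Ge P (∑ i, o i) (Q.ΦR A b u v) := by
  classical
  unfold ΦR
  rw [← Q.sum_col o]
  refine ge_det' P _ _ fun c r => ?_
  have hsum : ∀ (w : Fin m → K), (∀ j, Ge P 0 (w j)) → ∀ x : X,
      Ge P 0 (∑ j, w j * algebraMap k K (Q.eY.repr (Q.S.mX (Pi.single j 1) x) c)) :=
    fun w hw x => Ge.sum _ _ fun j _ => by simpa using (hw j).mul (Ge.const _)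
  by_cases hc : ∃ i, Q.col i = c
  · obtain ⟨i, rfl⟩ := hc
    rw [Q.filter_col i, Finset.sum_singleton]
    unfold MΦ
    rw [Matrix.of_apply]
    rcases r with r | r | r
    · rw [Sum.elim_inl, Q.repr_col, Q.mem_I.mp (hA r) i, map_zero]
      exact Ge.zero
    · rw [Sum.elim_inr, Sum.elim_inl, Q.entry]
      simpa using (h1 i).mul (Ge.const _)
    · rw [Sum.elim_inr, Sum.elim_inr, Q.entry]
      simpa using (h2 i).mul (Ge.const _)
  · have h0 : Finset.univ.filter (fun i => Q.col i = c) = ∅ := by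
      ext i
      simp only [Finset.mem_filter, Finset.mem_univ, true_and, Finset.notMem_empty, iff_false]
      exact fun h => hc ⟨i, h⟩
    rw [h0, Finset.sum_empty]
    unfold MΦ
    rw [Matrix.of_apply]
    rcases r with r | r | r
    · rw [Sum.elim_inl]
      exact Ge.const _
    · rw [Sum.elim_inr, Sum.elim_inl]
      exact hsum u hu _
    · rw [Sum.elim_inr, Sum.elim_inr]
      exact hsum v hv _

theorem red_ψ (P : Place k K) {u : Fin m → K} (hu : ∀ j, Ge P 0 (u j)) {c : Fin m → k}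
    (hc : ∀ j, Ge P 1 (u j - algebraMap k K (c j))) (b : Fin Q.b → X) :
    Ge P 0 (Q.ψR b u) ∧ Ge P 1 (Q.ψR b u - algebraMap k K (Q.ψ b c)) := by
  have h := red_mv P hu hc (Q.ψR b (fun j => MvPolynomial.X j))
  rw [map_ψR, map_ψR] at h
  simpa only [MvPolynomial.aeval_X, ψR_base] using h

theorem red_Φ (P : Place k K) {u v : Fin m → K} (hu : ∀ j, Ge P 0 (u j)) (hv : ∀ j, Ge P 0 (v j))
    {c d : Fin m → k} (hc : ∀ j, Ge P 1 (u j - algebraMap k K (c j)))
    (hd : ∀ j, Ge P 1 (v j - algebraMap k K (d j))) (A : Fin Q.c → Y) (b : Fin Q.b → X) :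
    Ge P 1 (Q.ΦR A b u v - algebraMap k K (Q.Φ A b c d)) := by
  have h := (red_mv P (f := Sum.elim u v) (c := Sum.elim c d)
    (fun j => by rcases j with j | j; exacts [hu j, hv j])
    (fun j => by rcases j with j | j; exacts [hc j, hd j])
    (Q.ΦR A b (fun j => MvPolynomial.X (Sum.inl j)) fun j => MvPolynomial.X (Sum.inr j))).2
  rw [map_ΦR, map_ΦR] at h
  simpa only [MvPolynomial.aeval_X, Sum.elim_inl, Sum.elim_inr, ΦR_base] using h

theorem ℓR_smul (i : Fin q) (t : K) (u : Fin m → K) :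
    Q.ℓR i (fun j => t * u j) = t * Q.ℓR i u := by
  unfold ℓR
  rw [Finset.mul_sum]
  exact Finset.sum_congr rfl fun j _ => by ring

theorem ℓR_der (i : Fin q) (D : Derivation k K K) (u : Fin m → K) :
    Q.ℓR i (fun j => D (u j)) = D (Q.ℓR i u) := by
  unfold ℓR
  rw [map_sum]
  refine Finset.sum_congr rfl fun j _ => ?_
  rw [D.leibniz, Derivation.map_algebraMap, smul_zero, zero_add, smul_eq_mul, mul_comm]

end Frame

theorem ne_of_red (P : Place k K) {x : K} {c : k} (hc : c ≠ 0) (hx : Ge P 0 x)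
    (h : Ge P 1 (x - algebraMap k K c)) : x ≠ 0 ∧ P.ord x = 0 := by
  have h1 : ¬ Ge P 1 x := by
    intro h2
    apply hc
    apply const_zero P
    have h3 := h2.sub h
    rwa [sub_sub_cancel] at h3
  have h0 : x ≠ 0 := fun h0 => h1 (Or.inl h0)
  refine ⟨h0, le_antisymm ?_ (hx.resolve_left h0)⟩
  by_contra hcon
  exact h1 (Or.inr (by omega))

namespace Frame

variable [IsAlgClosed k] [CharZero k] [IsFF k K]

variable {n q : ℕ} {L X Y : Type*} [AddCommGroup L] [Module k L]
    [AddCommGroup X] [Module k X] [AddCommGroup Y] [Module k Y] (Q : Frame k (n + 1) q L X Y)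

/-- The local estimate. -/
theorem local_est (P : Place k K) {D : Derivation k K K} (hD : D ≠ 0) {f : Fin (n + 1) → K}
    (hf : ∃ j, f j ≠ 0) {A : Fin Q.c → Y} (hA : ∀ a, A a ∈ Q.I) {b0 : Fin Q.b → X}
    (hb0 : Q.ψR b0 f ≠ 0) (hΦ : Q.ΦR A b0 f (fun j => D (f j)) ≠ 0) (hne : ∀ i, Q.ℓR i f ≠ 0) :
    2 * Q.b * pord P f + Q.b * vo P D + ∑ i, max (P.ord (Q.ℓR i f) - pord P f - 1) 0 ≤
      P.ord (Q.ΦR A b0 f (fun j => D (f j))) - P.ord (Q.ψR b0 f) := by
  classical
  have : Infinite k := IsAlgClosed.instInfinite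
  set π := unif P with hπd
  have hπ : P.ord π = 1 := ord_unif P
  have hπ0 : π ≠ 0 := by
    intro h
    rw [h, P.ord_zero] at hπ; omega
  have hw0 : D π ≠ 0 := der_pi_ne_zero hD P hπ
  set w := D π with hw
  set δ : Derivation k K K := w⁻¹ • D with hδd
  have hδ : δ π = 1 := by
    rw [hδd, Derivation.coe_smul, Pi.smul_apply, smul_eq_mul, ← hw, inv_mul_cancel₀ hw0]
  have hDδ : ∀ x, D x = w * δ x := by
    intro x
    rw [hδd, Derivation.coe_smul, Pi.smul_apply, smul_eq_mul, mul_inv_cancel_left₀ hw0]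
  have hwo : P.ord w = vo P D := rfl
  set s := pord P f with hs
  set t := π ^ s with ht
  have ht0 : t ≠ 0 := zpow_ne_zero _ hπ0
  have hto : P.ord t = s := by rw [ht, P.ord_zpow, hπ, mul_one]
  set g : Fin (n + 1) → K := fun j => t⁻¹ * f j with hg
  have hfg : f = fun j => t * g j := by
    funext j
    rw [hg]
    simp only
    rw [mul_inv_cancel_left₀ ht0]
  have hg0 : ∀ j, Ge P 0 (g j) := by
    intro j
    apply Ge.of_mul' (h := t) (m := s) ht0 hto
    rw [zero_add]
    have : t * g j = f j := by rw [hfg]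
    rw [this]
    exact ge_pord P f j
  have hv0 : ∀ j, Ge P 0 (δ (g j)) := fun j => der_reg P hπ δ hδ (hg0 j)
  choose c hc using fun j => exists_const P (hg0 j)
  have hc0 : c ≠ 0 := by
    intro h0
    obtain ⟨j, hj, hjo⟩ := exists_pord P hf
    have h1 := hc j
    rw [h0, Pi.zero_apply, map_zero, sub_zero] at h1
    have hgj : g j ≠ 0 := mul_ne_zero (inv_ne_zero ht0) hj
    have h2 := h1.resolve_left hgj
    have h3 : P.ord (f j) = s + P.ord (g j) := by
      have e : f j = t * g j := by conv_lhs => rw [hfg]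
      rw [e, P.ord_mul ht0 hgj, hto]
    omega
  obtain ⟨b, hb⟩ := Q.exists_b hc0
  obtain ⟨hψ0, hψ1⟩ := Q.red_ψ P hg0 hc b
  obtain ⟨hψne, hψo⟩ := ne_of_red P hb hψ0 hψ1
  -- the relations
  have e1 : Q.ψR b f = Q.ψR b g * t ^ Q.a := by
    conv_lhs => rw [hfg]
    exact Q.ψR_smul b g t
  have e2 : (fun j => D (f j)) = fun j => (t * w) * δ (g j) + D t * g j := by
    funext j
    conv_lhs => rw [hfg]
    rw [D.leibniz, hDδ (g j)]
    simp only [smul_eq_mul]
    ring
  have e3 : Q.ΦR A b f (fun j => D (f j)) =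
      Q.ΦR A b g (fun j => δ (g j)) * (t * w) ^ Q.b * t ^ (Q.a + Q.b) := by
    rw [e2]
    conv_lhs => rw [hfg]
    rw [Q.ΦR_smul']
    congr 1
    have h1 := Q.ΦR_shift A b g (fun j => (t * w) * δ (g j)) (D t)
    rw [Q.ΦR_smul] at h1
    rw [← h1]
  have e4 := Q.ratioR A b b0 f (fun j => D (f j))
  rw [e1, e3] at e4
  set W := Q.ΦR A b0 f (fun j => D (f j)) with hW
  set Z := Q.ΦR A b g (fun j => δ (g j)) with hZ
  have hZ0 : Z ≠ 0 := by
    intro h0
    rw [h0, zero_mul, zero_mul, zero_mul] at e4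
    exact mul_ne_zero hΦ (mul_ne_zero hψne (pow_ne_zero _ ht0)) e4
  have htw : t * w ≠ 0 := mul_ne_zero ht0 hw0
  have e5 := congrArg P.ord e4
  rw [P.ord_mul hΦ (mul_ne_zero hψne (pow_ne_zero _ ht0)), P.ord_mul hψne (pow_ne_zero _ ht0),
    P.ord_pow, P.ord_mul (mul_ne_zero (mul_ne_zero hZ0 (pow_ne_zero _ htw)) (pow_ne_zero _ ht0)) hb0,
    P.ord_mul (mul_ne_zero hZ0 (pow_ne_zero _ htw)) (pow_ne_zero _ ht0),
    P.ord_mul hZ0 (pow_ne_zero _ htw), P.ord_pow, P.ord_pow, P.ord_mul ht0 hw0, hto, hψo, hwo] at e5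
  -- the order of Z
  have hℓg : ∀ i, Q.ℓR i f = t * Q.ℓR i g := by
    intro i
    conv_lhs => rw [hfg]
    exact Q.ℓR_smul i t g
  have hℓg0 : ∀ i, Q.ℓR i g ≠ 0 := fun i h0 => hne i (by rw [hℓg, h0, mul_zero])
  have hℓo : ∀ i, P.ord (Q.ℓR i g) = P.ord (Q.ℓR i f) - s := by
    intro i
    rw [hℓg, P.ord_mul ht0 (hℓg0 i), hto]
    ring
  have hℓge : ∀ i, 0 ≤ P.ord (Q.ℓR i g) := by
    intro i
    have h1 : Ge P 0 (Q.ℓR i g) := Ge.sum _ _ fun j _ => by simpa using (hg0 j).mul (Ge.const _)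
    exact h1.resolve_left (hℓg0 i)
  have hZge : Ge P (∑ i, max (P.ord (Q.ℓR i f) - s - 1) 0) Z := by
    refine Q.Φ_ord P hA b hg0 hv0 _ (fun i => ?_) fun i => ?_
    · right
      have := hℓge i
      have := hℓo i
      apply max_le <;> omega
    · rw [Q.ℓR_der]
      by_cases h0 : P.ord (Q.ℓR i g) = 0
      · have h1 : max (P.ord (Q.ℓR i f) - s - 1) 0 = 0 := by
          have := hℓo i
          apply max_eq_right
          omega
        rw [h1]
        exact der_reg P hπ δ hδ (Or.inr (hℓge i))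
      · right
        obtain ⟨h1, h2⟩ := ord_der P hD h0
        rw [hDδ] at h1 h2
        rw [P.ord_mul hw0 (right_ne_zero_of_mul h1), hwo] at h2
        have := hℓge i
        have := hℓo i
        apply max_le <;> omega
  have hZo := hZge.resolve_left hZ0
  push_cast at e5
  nlinarith

end Frame

end Pool.Agent.W601.VF
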